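import Pool.Agent.H97.HV.Targets2
import Pool.Agent.H19.PRK.NBF

/-!
# MP_e37c09_lc: small sets over HOD(V_ γ). Finitely many points do not matter
-/

open Ordinal Cardinal Order Set
open scoped ZFSet

universe u

namespace HD.HV

open HD.PRK

/-- No new bounded subsets: there is a club set `C` such that for each small set `x` of points of `C`
and each `m ∈ x` such that `x ∩ m` is finite (so `m = min x`, or any `m ∈ x` if `x` is of order type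
`ω`) each subset of `m` which is definable from `x`, ordinals and an element of `V_ (min γ m)` is
definable from ordinals and an element of `V_ (min γ m)`. -/
def NoBdd (δ γ κ : Ordinal.{u}) : Prop := ∃ C, Clb κ C ∧ ∀ x, Sml δ κ C x →
  ∀ m : Ordinal.{u}, m.toZFSet ∈ x → {b : Ordinal.{u} | b.toZFSet ∈ x ∧ b < m}.Finite →
    ∀ B ⊆ m.toZFSet, ∀ a ∈ V_ (min γ m), NF.ODp (ZFSet.pair x a) B → PV (min γ m) B

end HD.HV

namespace Pool.Agent.H97.HV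

open _root_.HD HD.PRK HD.HV Pool.Agent.H45.NF

theorem odp_trans {p x y : ZFSet.{u}} (h1 : NF.ODp p x) (h2 : NF.ODp x y) : NF.ODp p y := by
  obtain ⟨Q1, hQ1, g1⟩ := ODp.def h1
  obtain ⟨Q2, hQ2, g2⟩ := ODp.def h2
  refine ODp.of_dz (Q := fun v => ∃ z, Q1 (cons z fun _ => v 1) ∧ Q2 (cons (v 0) fun _ => z))
    (DZ.ex (R := fun z v => Q1 (cons z fun _ => v 1) ∧ Q2 (cons (v 0) fun _ => z))
      (DZ.and ?_ ?_)) fun z => ?_
  · refine (hQ1.ren fun n => if n = 0 then 0 else 2).congr fun v => ?_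
    have : (cons (v 0) fun _ => v 2) = fun n => v (if n = 0 then 0 else 2) := by
      funext n
      rcases n with _ | n <;> simp
    rw [← this]
  · refine (hQ2.ren fun n => if n = 0 then 1 else 0).congr fun v => ?_
    have : (cons (v 1) fun _ => v 0) = fun n => v (if n = 0 then 1 else 0) := by
      funext n
      rcases n with _ | n <;> simp
    rw [← this]
  · show (∃ w, Q1 (cons w fun _ => p) ∧ Q2 (cons z fun _ => w)) ↔ z = y
    constructor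
    · rintro ⟨w, hw1, hw2⟩
      rw [(g1 w).1 hw1] at hw2
      exact (g2 z).1 hw2
    · rintro rfl
      exact ⟨x, (g1 x).2 rfl, (g2 z).2 rfl⟩

/-- the pair after adding finitely many ordinals to the first component -/
theorem odp_fin {x x' a : ZFSet.{u}} {T : Set Ordinal.{u}} (hT : T.Finite)
    (hx : ∀ z, z ∈ x ↔ z ∈ x' ∨ ∃ b ∈ T, z = b.toZFSet) :
    NF.ODp (ZFSet.pair x' a) (ZFSet.pair x a) := by
  refine ODp.of_dz (Q := fun v => ∃ x' a x, v 1 = ZFSet.pair x' a ∧ v 0 = ZFSet.pair x a ∧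
    ∀ z, z ∈ x ↔ z ∈ x' ∨ ∃ b ∈ T, z = b.toZFSet) ?_ fun y => ?_
  · refine DZ.ex (R := fun x' v => ∃ a x, v 1 = ZFSet.pair x' a ∧ v 0 = ZFSet.pair x a ∧
      ∀ z, z ∈ x ↔ z ∈ x' ∨ ∃ b ∈ T, z = b.toZFSet) ?_
    refine DZ.ex (R := fun a v => ∃ x, v 2 = ZFSet.pair (v 0) a ∧ v 1 = ZFSet.pair x a ∧
      ∀ z, z ∈ x ↔ z ∈ v 0 ∨ ∃ b ∈ T, z = b.toZFSet) ?_
    refine DZ.ex (R := fun x v => v 3 = ZFSet.pair (v 1) (v 0) ∧ v 2 = ZFSet.pair x (v 0) ∧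
      ∀ z, z ∈ x ↔ z ∈ v 1 ∨ ∃ b ∈ T, z = b.toZFSet) ?_
    refine DZ.and (loc_pair 4 2 1).dz (DZ.and (loc_pair 3 0 1).dz ?_)
    exact DZ.all (R := fun z v => z ∈ v 0 ↔ z ∈ v 2 ∨ ∃ b ∈ T, z = b.toZFSet)
      ((DZ.mem 0 1).iff ((DZ.mem 0 3).or
        ((Pool.Agent.H19.PRK.NBF_fin T hT).ren fun _ => 0)))
  · show (∃ u b w, ZFSet.pair x' a = ZFSet.pair u b ∧ y = ZFSet.pair w b ∧
      ∀ z, z ∈ w ↔ z ∈ u ∨ ∃ b ∈ T, z = b.toZFSet) ↔ y = ZFSet.pair x a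
    constructor
    · rintro ⟨u, b, w, he, rfl, hw⟩
      obtain ⟨rfl, rfl⟩ := ZFSet.pair_injective he
      have : w = x := by
        ext z
        rw [hw z, hx z]
      rw [this]
    · rintro rfl
      exact ⟨x', a, x, rfl, rfl, hx⟩

theorem nsf {δ γ κ : Ordinal.{u}} (h : NoSub δ γ κ) : NoBdd δ γ κ := by
  obtain ⟨C, hC, h⟩ := h
  refine ⟨C, hC, fun x hx m hm hfin B hB a ha hod => ?_⟩
  have hx' : ∀ z, z ∈ ZFSet.sep (fun z => m.toZFSet ⊆ z) x ↔ z ∈ x ∧ m.toZFSet ⊆ z := fun z =>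
    ZFSet.mem_sep
  refine h (ZFSet.sep (fun z => m.toZFSet ⊆ z) x) ⟨⟨m.toZFSet, (hx' _).2 ⟨hm, subset_refl _⟩⟩,
    fun z hz => hx.mem z ((hx' z).1 hz).1, ?_⟩ m ((hx' _).2 ⟨hm, subset_refl _⟩)
    (fun b hb => Ordinal.toZFSet_subset_toZFSet_iff.1 ((hx' _).1 hb).2) B hB a ha ?_
  · obtain ⟨τ, hτ, g, hg⟩ := hx.few
    exact ⟨τ, hτ, g, fun b hb => hg b ((hx' _).1 hb).1⟩
  · refine odp_trans (odp_fin hfin fun z => ?_) hod
    rw [hx']
    constructor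
    · intro hz
      obtain ⟨b, -, -, -, rfl⟩ := hx.mem z hz
      rcases le_or_gt m b with hab | hab
      · exact Or.inl ⟨hz, Ordinal.toZFSet_subset_toZFSet_iff.2 hab⟩
      · exact Or.inr ⟨b, ⟨hz, hab⟩, rfl⟩
    · rintro (⟨hz, -⟩ | ⟨b, ⟨hb, -⟩, rfl⟩)
      · exact hz
      · exact hb

end Pool.Agent.H97.HV
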