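import Pool.Agent.H54.WM.Targets
import Pool.Agent.H14.HV.PVA
import Pool.Agent.H14.HV.PVD
import Pool.Agent.H64.HV.WZF
import Pool.Agent.H11.HV.NMF

/-!
# MP_e37c09_lc: elementary embeddings of HOD(V_ ξ) into transitive classes. Definitions

A variant of the library `Pool.Agent.H54.WM` for the models HOD(V_ (min γ ξ)).
-/

open Ordinal Cardinal Order Set
open scoped ZFSet

universe u

/-! ## Statement-level definitions -/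

namespace HD.HV

open HD.PRK

/-- `j` is an elementary embedding of the model HOD(V_ (min γ ξ)) into the transitive class `M` with
critical point `ξ`. -/
structure NEmb (γ ξ : Ordinal.{u}) (M : ZFSet.{u} → Prop) (j : ZFSet.{u} → ZFSet.{u}) : Prop where
  tra : ∀ x, M x → ∀ y ∈ x, M y
  map : ∀ x, NV (min γ ξ) x → M (j x)
  elem : ∀ (φ : Fml) (v : ℕ → ZFSet.{u}), (∀ n, NV (min γ ξ) (v n)) →
    (Sat (NV (min γ ξ)) φ v ↔ Sat M φ (j ∘ v))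
  fix : ∀ a < ξ, j a.toZFSet = a.toZFSet
  crit : j ξ.toZFSet ≠ ξ.toZFSet

/-- `j` is an elementary embedding of the model HOD(V_ (min γ ξ)) into the transitive class `M`; its
restriction to `V_ (ξ + 1)` of this model is an elementary embedding into `V_ (κ + 1)` of the model
HOD(V_ (min γ κ)) with critical point `ξ` which maps `ξ` to `κ`; `M` and the latter model have the
same elements of `V_ κ`; and the subsets of `V_ κ` in `M` are in this model. -/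
structure SEmb (γ ξ κ : Ordinal.{u}) (M : ZFSet.{u} → Prop) (j : ZFSet.{u} → ZFSet.{u}) :
    Prop where
  tra : ∀ x, M x → ∀ y ∈ x, M y
  map : ∀ x, NV (min γ ξ) x → M (j x)
  elem : ∀ (φ : Fml) (v : ℕ → ZFSet.{u}), (∀ n, NV (min γ ξ) (v n)) →
    (Sat (NV (min γ ξ)) φ v ↔ Sat M φ (j ∘ v))
  emb : PEmb γ ξ κ j
  low : ∀ x ∈ V_ κ, (M x ↔ NV (min γ κ) x)
  pow : ∀ x, M x → x ⊆ V_ κ → NV (min γ κ) x

/-- Some `ξ` in `(δ, κ)` of cofinality less than `δ` is the critical point of an elementary embedding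
of HOD(V_ (min γ ξ)) into a transitive class. -/
def NES (δ γ κ : Ordinal.{u}) : Prop := ∃ ξ, δ < ξ ∧ ξ < κ ∧ IsSuccLimit ξ ∧ ξ.cof.ord < δ ∧
  ∃ M j, NEmb γ ξ M j

/-- Club many `ξ < κ` of uncountable cofinality are the critical points of embeddings as above. -/
def NEC (γ κ : Ordinal.{u}) : Prop := ∃ C, Clb κ C ∧ ∀ ξ ∈ C, ξ < κ → ℵ₀ < ξ.cof →
  IsSuccLimit ξ ∧ ∃ M j, SEmb γ ξ κ M j

end HD.HV

namespace HD.HW

open HD.PRK HD.HV Pool.Agent.H54.WM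

/-! ## `(V_ ρ)` of the model HOD(V_ (min γ ρ)) and the terms -/

/-- `(V_ ρ)` of the model HOD(V_ (min γ ρ)) -/
noncomputable def HW (γ ρ : Ordinal.{u}) : ZFSet.{u} := Wz (min γ ρ) ρ

/-- a term -/
structure Tm (γ ξ κ : Ordinal.{u}) : Type (u + 1) where
  b : ZFSet.{u}
  f : ZFSet.{u}
  hb : b ∈ HW γ κ
  hf : NV (min γ ξ) f

/-- the set of the `w ∈ (V_ ξ)^N` such that `φ` is true in `N` = HOD(V_ (min γ ξ)) for the values of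
the functions `f n` at the entries of `w` -/
noncomputable def TS (γ ξ : Ordinal.{u}) (φ : Fml) (f : ℕ → ZFSet.{u}) : ZFSet.{u} :=
  ZFSet.sep (fun w => Sat (NV (min γ ξ)) φ (fun n => ap (f n) (pr n w))) (HW γ ξ)

/-- `s` is an element of `t` -/
def ME {γ ξ κ : Ordinal.{u}} (j : ZFSet.{u} → ZFSet.{u}) (s t : Tm γ ξ κ) : Prop :=
  tup [s.b, t.b] ∈ j (TS γ ξ (.mem 0 1) (sv [s.f, t.f]))

/-- `s` is equal to `t` -/
def MQ {γ ξ κ : Ordinal.{u}} (j : ZFSet.{u} → ZFSet.{u}) (s t : Tm γ ξ κ) : Prop :=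
  tup [s.b, t.b] ∈ j (TS γ ξ (.eq 0 1) (sv [s.f, t.f]))

/-- Countable completeness. -/
def CC (γ ξ κ : Ordinal.{u}) (j : ZFSet.{u} → ZFSet.{u}) : Prop :=
  ∀ b x : ℕ → ZFSet.{u}, (∀ n, b n ∈ HW γ κ) → (∀ n, WV γ ξ (x n)) →
    (∀ n, tup [b (n + 1), b n] ∈ j (x n)) →
    ∃ c : ℕ → ZFSet.{u}, (∀ n, c n ∈ HW γ ξ) ∧ ∀ n, tup [c (n + 1), c n] ∈ x n

/-- the hypotheses on `γ`, `ξ`, `κ` and `j` -/
structure Bas (γ ξ κ : Ordinal.{u}) (j : ZFSet.{u} → ZFSet.{u}) : Prop where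
  lγ : IsSuccLimit γ
  lξ : IsSuccLimit ξ
  lκ : IsSuccLimit κ
  le : ξ ≤ κ
  emb : PEmb γ ξ κ j

/-! ## Basic facts -/

theorem lmin {a b : Ordinal.{u}} (ha : IsSuccLimit a) (hb : IsSuccLimit b) :
    IsSuccLimit (min a b) := by
  rcases min_choice a b with h | h
  · rw [h]; exact ha
  · rw [h]; exact hb

theorem mem_HW {γ ρ : Ordinal.{u}} {x : ZFSet.{u}} :
    x ∈ HW γ ρ ↔ x ∈ V_ ρ ∧ NV (min γ ρ) x := ZFSet.mem_sep

theorem mem_TS {γ ξ : Ordinal.{u}} {φ : Fml} {f : ℕ → ZFSet.{u}} {w : ZFSet.{u}} :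
    w ∈ TS γ ξ φ f ↔ w ∈ HW γ ξ ∧ Sat (NV (min γ ξ)) φ (fun n => ap (f n) (pr n w)) :=
  ZFSet.mem_sep

theorem nv_iff {g : Ordinal.{u}} {x : ZFSet.{u}} : NV g x ↔ PV g x ∧ ∀ y ∈ x, NV g y :=
  ZFSet.hereditarily_iff

theorem nv_tra {g : Ordinal.{u}} (x : ZFSet.{u}) (hx : NV g x) : ∀ y ∈ x, NV g y :=
  (nv_iff.1 hx).2

theorem nv_pair {g : Ordinal.{u}} (hg : IsSuccLimit g) {x y : ZFSet.{u}} (hx : NV g x)
    (hy : NV g y) : NV g (ZFSet.pair x y) :=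
  Pool.Agent.H11.HV.nv_pair Pool.Agent.H14.HV.pf_PVA hg hx hy

theorem nv_upair {g : Ordinal.{u}} (hg : IsSuccLimit g) {x y : ZFSet.{u}} (hx : NV g x)
    (hy : NV g y) : NV g ({x, y} : ZFSet.{u}) :=
  Pool.Agent.H11.HV.nv_upair Pool.Agent.H14.HV.pf_PVA hg hx hy

theorem nv_ord {g : Ordinal.{u}} (hg : IsSuccLimit g) (a : Ordinal.{u}) : NV g a.toZFSet :=
  Pool.Agent.H14.HV.nv_ord hg.bot_lt a

theorem nv_empty {g : Ordinal.{u}} (hg : IsSuccLimit g) : NV g (∅ : ZFSet.{u}) := by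
  have := nv_ord hg (0 : Ordinal.{u})
  rwa [toZFSet_zero] at this

theorem nv_mem_V {g : Ordinal.{u}} {x : ZFSet.{u}} (hx : x ∈ V_ g) : NV g x :=
  Pool.Agent.H14.HV.nv_mem x hx

theorem nv_hod {g : Ordinal.{u}} (hg : IsSuccLimit g) {x : ZFSet.{u}} (hx : HOD x) : NV g x :=
  Pool.Agent.H11.HV.nv_of_hod Pool.Agent.H14.HV.pf_PVA hg.bot_lt x hx

theorem nv_of_pair {g : Ordinal.{u}} {x y : ZFSet.{u}} (h : NV g (ZFSet.pair x y)) :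
    NV g x ∧ NV g y := by
  have h1 : NV g ({x, y} : ZFSet.{u}) := by
    refine nv_tra _ h _ ?_
    unfold ZFSet.pair
    exact ZFSet.mem_pair.2 (Or.inr rfl)
  exact ⟨nv_tra _ h1 _ (ZFSet.mem_pair.2 (Or.inl rfl)),
    nv_tra _ h1 _ (ZFSet.mem_pair.2 (Or.inr rfl))⟩

/-- definability of the class -/
theorem dz_nv (g : Ordinal.{u}) (i : ℕ) : DZ.{u} fun v => NV g (v i) :=
  (Pool.Agent.H14.HV.pf_PVD g).2.ren fun _ => i

/-- sets which are definable from elements of the class -/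
theorem nv_of {g : Ordinal.{u}} (hg : IsSuccLimit g)
    {P : ZFSet.{u} → ZFSet.{u} → ZFSet.{u} → ZFSet.{u} → Prop}
    (hP : DZ fun v => P (v 0) (v 1) (v 2) (v 3)) {p q r x : ZFSet.{u}} (hp : NV g p)
    (hq : NV g q) (hr : NV g r) (hx : ∀ z, z ∈ x ↔ P z p q r) (hel : ∀ z ∈ x, NV g z) :
    NV g x := by
  refine nv_iff.2 ⟨?_, hel⟩
  refine Pool.Agent.H14.HV.pf_PVA.2.2.1 g hg p (ZFSet.pair q r) x (nv_iff.1 hp).1
    (nv_iff.1 (nv_pair hg hq hr)).1 ?_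
  refine Pool.Agent.H45.NF.ODp.of_dz (Q := fun v => ∃ p q r s, v 1 = ZFSet.pair p s ∧
    s = ZFSet.pair q r ∧ ∀ z, (z ∈ v 0 ↔ P z p q r)) ?_ fun y => ?_
  · refine DZ.ex (DZ.ex (DZ.ex (DZ.ex ?_)))
    -- order of the variables: s, r, q, p, v 0, v 1
    refine (loc_pair 5 3 0).dz.and ((loc_pair 0 2 1).dz.and ?_)
    refine DZ.all (R := fun z v => (z ∈ v 4 ↔ P z (v 3) (v 2) (v 1))) ?_
    refine (DZ.mem 0 5).iff ?_
    exact hP.ren fun n => if n = 0 then 0 else if n = 1 then 4 else if n = 2 then 3 else 2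
  · constructor
    · rintro ⟨p', q', r', s, h1, rfl, h2⟩
      obtain ⟨rfl, h3⟩ := ZFSet.pair_injective h1
      obtain ⟨rfl, rfl⟩ := ZFSet.pair_injective h3
      ext z
      rw [hx z]
      exact h2 z
    · rintro rfl
      exact ⟨p, q, r, _, rfl, rfl, hx⟩

theorem HW_sub (γ ρ : Ordinal.{u}) : HW γ ρ ⊆ V_ ρ := fun _ h => (mem_HW.1 h).1

theorem od_HW (γ ρ : Ordinal.{u}) : OD (HW γ ρ) :=
  (Pool.Agent.H64.HV.pf_WZF Pool.Agent.H14.HV.pf_PVA Pool.Agent.H14.HV.pf_PVD).2.1 _ _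

theorem nv_HW {γ ρ : Ordinal.{u}} (hg : IsSuccLimit (min γ ρ)) : NV (min γ ρ) (HW γ ρ) :=
  nv_iff.2 ⟨Pool.Agent.H14.HV.pf_PVA.1 _ _ hg.bot_lt (od_HW γ ρ), fun _ hy => (mem_HW.1 hy).2⟩

/-- the elements of elements of `(V_ (ρ + 1))` -/
theorem mem_HW_of_WV {γ ρ : Ordinal.{u}} {x y : ZFSet.{u}} (hy : WV γ ρ y) (h : x ∈ y) :
    x ∈ HW γ ρ := mem_HW.2 ⟨hy.2 h, nv_tra _ hy.1 _ h⟩

theorem HW_tra {γ ρ : Ordinal.{u}} {x y : ZFSet.{u}} (hy : y ∈ HW γ ρ) (h : x ∈ y) :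
    x ∈ HW γ ρ := by
  refine mem_HW.2 ⟨?_, nv_tra _ (mem_HW.1 hy).2 _ h⟩
  rw [ZFSet.mem_vonNeumann]
  exact (ZFSet.rank_lt_of_mem h).trans (ZFSet.mem_vonNeumann.1 (mem_HW.1 hy).1)

theorem WV_of_HW {γ ρ : Ordinal.{u}} {y : ZFSet.{u}} (hy : y ∈ HW γ ρ) : WV γ ρ y :=
  ⟨(mem_HW.1 hy).2, fun _ hx => (mem_HW.1 (HW_tra hy hx)).1⟩

theorem WV_tra {γ ρ : Ordinal.{u}} (x : ZFSet.{u}) (hx : WV γ ρ x) : ∀ y ∈ x, WV γ ρ y :=
  fun _ hy => WV_of_HW (mem_HW_of_WV hx hy)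

theorem WV_sub {γ ρ : Ordinal.{u}} (hg : IsSuccLimit (min γ ρ)) : WV γ ρ (HW γ ρ) :=
  ⟨nv_HW hg, HW_sub γ ρ⟩

theorem pair_mem_HW {γ ρ : Ordinal.{u}} (hg : IsSuccLimit (min γ ρ)) (hρ : IsSuccLimit ρ)
    {x y : ZFSet.{u}} (hx : x ∈ HW γ ρ) (hy : y ∈ HW γ ρ) : ZFSet.pair x y ∈ HW γ ρ :=
  mem_HW.2 ⟨(pair_mem_V hρ).2 ⟨(mem_HW.1 hx).1, (mem_HW.1 hy).1⟩,
    nv_pair hg (mem_HW.1 hx).2 (mem_HW.1 hy).2⟩

theorem of_pair_mem_HW {γ ρ : Ordinal.{u}} (hρ : IsSuccLimit ρ) {x y : ZFSet.{u}}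
    (h : ZFSet.pair x y ∈ HW γ ρ) : x ∈ HW γ ρ ∧ y ∈ HW γ ρ := by
  obtain ⟨h1, h2⟩ := mem_HW.1 h
  obtain ⟨h3, h4⟩ := (pair_mem_V hρ).1 h1
  exact ⟨mem_HW.2 ⟨h3, (nv_of_pair h2).1⟩, mem_HW.2 ⟨h4, (nv_of_pair h2).2⟩⟩

theorem empty_mem_HW {γ ρ : Ordinal.{u}} (hg : IsSuccLimit (min γ ρ)) (hρ : IsSuccLimit ρ) :
    (∅ : ZFSet.{u}) ∈ HW γ ρ := by
  refine mem_HW.2 ⟨?_, nv_empty hg⟩
  rw [ZFSet.mem_vonNeumann, ZFSet.rank_empty]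
  exact hρ.bot_lt

theorem fs_mem_HW {γ ρ : Ordinal.{u}} (hg : IsSuccLimit (min γ ρ)) (hρ : IsSuccLimit ρ)
    {w : ZFSet.{u}} (hw : w ∈ HW γ ρ) : fs w ∈ HW γ ρ := by
  by_cases h : ∃ u v, w = ZFSet.pair u v
  · obtain ⟨u, v, rfl⟩ := h
    rw [fs_pair]
    exact (of_pair_mem_HW hρ hw).1
  · rw [fs_not h]
    exact empty_mem_HW hg hρ

theorem sn_mem_HW {γ ρ : Ordinal.{u}} (hg : IsSuccLimit (min γ ρ)) (hρ : IsSuccLimit ρ)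
    {w : ZFSet.{u}} (hw : w ∈ HW γ ρ) : sn w ∈ HW γ ρ := by
  by_cases h : ∃ u v, w = ZFSet.pair u v
  · obtain ⟨u, v, rfl⟩ := h
    rw [sn_pair]
    exact (of_pair_mem_HW hρ hw).2
  · rw [sn_not h]
    exact empty_mem_HW hg hρ

theorem pr_mem_HW {γ ρ : Ordinal.{u}} (hg : IsSuccLimit (min γ ρ)) (hρ : IsSuccLimit ρ) (n : ℕ)
    {w : ZFSet.{u}} (hw : w ∈ HW γ ρ) : pr n w ∈ HW γ ρ := by
  induction n generalizing w with
  | zero => exact fs_mem_HW hg hρ hw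
  | succ n ih => exact ih (sn_mem_HW hg hρ hw)

theorem tup_mem_HW {γ ρ : Ordinal.{u}} (hg : IsSuccLimit (min γ ρ)) (hρ : IsSuccLimit ρ)
    {l : List ZFSet.{u}} (hl : ∀ x ∈ l, x ∈ HW γ ρ) : tup l ∈ HW γ ρ := by
  induction l with
  | nil => exact empty_mem_HW hg hρ
  | cons a l ih =>
    exact pair_mem_HW hg hρ (hl a (by simp)) (ih fun x hx => hl x (by simp [hx]))

theorem nv_tup {g : Ordinal.{u}} (hg : IsSuccLimit g) {l : List ZFSet.{u}}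
    (hl : ∀ x ∈ l, NV g x) : NV g (tup l) := by
  induction l with
  | nil => exact nv_empty hg
  | cons a l ih => exact nv_pair hg (hl a (by simp)) (ih fun x hx => hl x (by simp [hx]))

theorem nv_pr {g : Ordinal.{u}} (hg : IsSuccLimit g) (n : ℕ) {w : ZFSet.{u}} (hw : NV g w) :
    NV g (pr n w) := by
  induction n generalizing w with
  | zero =>
    show NV g (fs w)
    by_cases h : ∃ u v, w = ZFSet.pair u v
    · obtain ⟨u, v, rfl⟩ := h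
      rw [fs_pair]
      exact (nv_of_pair hw).1
    · rw [fs_not h]
      exact nv_empty hg
  | succ n ih =>
    refine ih ?_
    by_cases h : ∃ u v, w = ZFSet.pair u v
    · obtain ⟨u, v, rfl⟩ := h
      rw [sn_pair]
      exact (nv_of_pair hw).2
    · rw [sn_not h]
      exact nv_empty hg

/-- small sets of the larger model -/
theorem HW_cap {γ ξ κ : Ordinal.{u}} (hle : ξ ≤ κ) {b : ZFSet.{u}} (hb : b ∈ V_ ξ)
    (hN : NV (min γ κ) b) : b ∈ HW γ ξ := by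
  refine mem_HW.2 ⟨hb, ?_⟩
  rcases le_total γ ξ with h | h
  · rw [min_eq_left h]
    rwa [min_eq_left (h.trans hle)] at hN
  · rw [min_eq_right h]
    exact nv_mem_V hb

theorem HW_mono {γ ξ κ : Ordinal.{u}} (hle : ξ ≤ κ) {b : ZFSet.{u}} (hb : b ∈ HW γ ξ) :
    b ∈ HW γ κ := by
  refine mem_HW.2 ⟨?_, ?_⟩
  · have h := (mem_HW.1 hb).1
    rw [ZFSet.mem_vonNeumann] at h ⊢
    exact h.trans_le hle
  · exact Pool.Agent.H14.HV.nv_mono (min_le_min_left γ hle) b (mem_HW.1 hb).2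

/-! ## Functions -/

/-- the restriction of the function `g` to the `u ∈ (V_ ξ)^N` with `g u ∈ a` -/
noncomputable def gr (γ ξ : Ordinal.{u}) (g a : ZFSet.{u}) : ZFSet.{u} :=
  ZFSet.sep (fun p => ∃ u ∈ HW γ ξ, p = ZFSet.pair u (ap g u) ∧ ap g u ∈ a)
    (ZFSet.prod (HW γ ξ) a)

/-- the constant function with value `x` -/
noncomputable def cst (γ ξ : Ordinal.{u}) (x : ZFSet.{u}) : ZFSet.{u} :=
  ZFSet.prod (HW γ ξ) {x}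

/-- the identity function -/
noncomputable def idf (γ ξ : Ordinal.{u}) : ZFSet.{u} :=
  ZFSet.sep (fun p => ∃ u ∈ HW γ ξ, p = ZFSet.pair u u) (ZFSet.prod (HW γ ξ) (HW γ ξ))

theorem mem_gr {γ ξ : Ordinal.{u}} {g a p : ZFSet.{u}} :
    p ∈ gr γ ξ g a ↔ ∃ u ∈ HW γ ξ, p = ZFSet.pair u (ap g u) ∧ ap g u ∈ a := by
  unfold gr
  rw [ZFSet.mem_sep]
  refine ⟨fun h => h.2, fun h => ⟨?_, h⟩⟩
  obtain ⟨u, hu, rfl, ha⟩ := h
  rw [ZFSet.mem_prod]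
  exact ⟨u, hu, _, ha, rfl⟩

theorem mem_cst {γ ξ : Ordinal.{u}} {x p : ZFSet.{u}} :
    p ∈ cst γ ξ x ↔ ∃ u ∈ HW γ ξ, p = ZFSet.pair u x := by
  unfold cst
  rw [ZFSet.mem_prod]
  constructor
  · rintro ⟨u, hu, y, hy, rfl⟩
    rw [ZFSet.mem_singleton] at hy
    subst hy
    exact ⟨u, hu, rfl⟩
  · rintro ⟨u, hu, rfl⟩
    exact ⟨u, hu, x, ZFSet.mem_singleton.2 rfl, rfl⟩

theorem mem_idf {γ ξ : Ordinal.{u}} {p : ZFSet.{u}} :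
    p ∈ idf γ ξ ↔ ∃ u ∈ HW γ ξ, p = ZFSet.pair u u := by
  unfold idf
  rw [ZFSet.mem_sep]
  refine ⟨fun h => h.2, fun h => ⟨?_, h⟩⟩
  obtain ⟨u, hu, rfl⟩ := h
  rw [ZFSet.mem_prod]
  exact ⟨u, hu, u, hu, rfl⟩

theorem ap_gr {γ ξ : Ordinal.{u}} {g a u : ZFSet.{u}} (hu : u ∈ HW γ ξ) (h : ap g u ∈ a) :
    ap (gr γ ξ g a) u = ap g u := by
  ext z
  rw [mem_ap]
  constructor
  · rintro ⟨y, hy, hz⟩
    obtain ⟨u', -, h1, -⟩ := mem_gr.1 hy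
    obtain ⟨rfl, rfl⟩ := ZFSet.pair_inj.1 h1
    exact hz
  · intro hz
    exact ⟨_, mem_gr.2 ⟨u, hu, rfl, h⟩, hz⟩

theorem ap_cst {γ ξ : Ordinal.{u}} {x u : ZFSet.{u}} (hu : u ∈ HW γ ξ) :
    ap (cst γ ξ x) u = x := by
  ext z
  rw [mem_ap]
  constructor
  · rintro ⟨y, hy, hz⟩
    obtain ⟨u', -, h1⟩ := mem_cst.1 hy
    obtain ⟨rfl, rfl⟩ := ZFSet.pair_inj.1 h1
    exact hz
  · intro hz
    exact ⟨_, mem_cst.2 ⟨u, hu, rfl⟩, hz⟩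

theorem ap_idf {γ ξ : Ordinal.{u}} {u : ZFSet.{u}} (hu : u ∈ HW γ ξ) :
    ap (idf γ ξ) u = u := by
  ext z
  rw [mem_ap]
  constructor
  · rintro ⟨y, hy, hz⟩
    obtain ⟨u', -, h1⟩ := mem_idf.1 hy
    obtain ⟨rfl, rfl⟩ := ZFSet.pair_inj.1 h1
    exact hz
  · intro hz
    exact ⟨_, mem_idf.2 ⟨u, hu, rfl⟩, hz⟩

theorem nv_ap {g : Ordinal.{u}} (hg : IsSuccLimit g) {f u : ZFSet.{u}} (hf : NV g f)
    (hu : NV g u) : NV g (ap f u) := by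
  refine nv_of hg (P := fun z f u _ => ∃ y, ZFSet.pair u y ∈ f ∧ z ∈ y) ?_ hf hu hu
    (fun z => mem_ap) fun z hz => ?_
  · refine DZ.ex (R := fun y v => ZFSet.pair (v 2) y ∈ v 1 ∧ v 0 ∈ y) ?_
    refine DZ.and ?_ (DZ.mem 1 0)
    refine (DZ.exMem (R := fun p v => p = ZFSet.pair (v 3) (v 0)) 2
      (D0.pair 0 4 1).dz).congr fun v => ?_
    simp
  · obtain ⟨y, h1, h2⟩ := mem_ap.1 hz
    exact nv_tra _ (nv_of_pair (nv_tra _ hf _ h1)).2 _ h2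

theorem nv_gr {γ ξ : Ordinal.{u}} (hg : IsSuccLimit (min γ ξ)) {g a : ZFSet.{u}}
    (hgg : NV (min γ ξ) g) (ha : NV (min γ ξ) a) : NV (min γ ξ) (gr γ ξ g a) := by
  refine nv_of hg (P := fun z h g a => ∃ u ∈ h, ∃ y, y = ap g u ∧ z = ZFSet.pair u y ∧ y ∈ a)
    ?_ (nv_HW hg) hgg ha (fun z => ?_) fun z hz => ?_
  · refine DZ.exMem (R := fun u v => ∃ y, y = ap (v 2) u ∧ v 0 = ZFSet.pair u y ∧ y ∈ v 3) 1 ?_
    refine DZ.ex (R := fun y v => y = ap (v 3) (v 0) ∧ v 1 = ZFSet.pair (v 0) y ∧ y ∈ v 4) ?_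
    exact (D0.ap 0 4 1).dz.and ((D0.pair 2 1 0).dz.and (DZ.mem 0 5))
  · rw [mem_gr]
    simp
  · obtain ⟨u, hu, rfl, h⟩ := mem_gr.1 hz
    exact nv_pair hg (mem_HW.1 hu).2 (nv_tra _ ha _ h)

theorem nv_cst {γ ξ : Ordinal.{u}} (hg : IsSuccLimit (min γ ξ)) {x : ZFSet.{u}}
    (hx : NV (min γ ξ) x) : NV (min γ ξ) (cst γ ξ x) := by
  refine nv_of hg (P := fun z h x _ => ∃ u ∈ h, z = ZFSet.pair u x) ?_ (nv_HW hg) hx hx
    (fun z => mem_cst) fun z hz => ?_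
  · exact DZ.exMem (R := fun u v => v 0 = ZFSet.pair u (v 2)) 1 (D0.pair 1 0 3).dz
  · obtain ⟨u, hu, rfl⟩ := mem_cst.1 hz
    exact nv_pair hg (mem_HW.1 hu).2 hx

theorem nv_idf {γ ξ : Ordinal.{u}} (hg : IsSuccLimit (min γ ξ)) :
    NV (min γ ξ) (idf γ ξ) := by
  refine nv_of hg (P := fun z h _ _ => ∃ u ∈ h, z = ZFSet.pair u u) ?_ (nv_HW hg) (nv_HW hg)
    (nv_HW hg) (fun z => mem_idf) fun z hz => ?_
  · exact DZ.exMem (R := fun u v => v 0 = ZFSet.pair u u) 1 (D0.pair 1 0 0).dz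
  · obtain ⟨u, hu, rfl⟩ := mem_idf.1 hz
    exact nv_pair hg (mem_HW.1 hu).2 (mem_HW.1 hu).2

/-- the subset `gr γ ξ g (HW γ ξ)` of `V_ ξ` -/
theorem WV_gr {γ ξ : Ordinal.{u}} (hg : IsSuccLimit (min γ ξ)) (hξ : IsSuccLimit ξ)
    {g : ZFSet.{u}} (hgg : NV (min γ ξ) g) : WV γ ξ (gr γ ξ g (HW γ ξ)) := by
  refine ⟨nv_gr hg hgg (nv_HW hg), fun z hz => ?_⟩
  obtain ⟨u, hu, rfl, h⟩ := mem_gr.1 hz
  exact (mem_HW.1 (pair_mem_HW hg hξ hu h)).1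

/-! ## The terms for the elements of `(V_ κ)` and of the class -/

/-- the term for `c` -/
noncomputable def idt {γ ξ κ : Ordinal.{u}} (hg : IsSuccLimit (min γ ξ)) (c : ZFSet.{u})
    (hc : c ∈ HW γ κ) : Tm γ ξ κ := ⟨c, idf γ ξ, hc, nv_idf hg⟩

/-- the term for the image of `x` -/
noncomputable def ct {γ ξ κ : Ordinal.{u}} (hg : IsSuccLimit (min γ ξ))
    (hg' : IsSuccLimit (min γ κ)) (hκ : IsSuccLimit κ) (x : ZFSet.{u})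
    (hx : NV (min γ ξ) x) : Tm γ ξ κ := ⟨∅, cst γ ξ x, empty_mem_HW hg' hκ, nv_cst hg hx⟩

theorem Bas.gξ {γ ξ κ : Ordinal.{u}} {j : ZFSet.{u} → ZFSet.{u}} (h : Bas γ ξ κ j) :
    IsSuccLimit (min γ ξ) := lmin h.lγ h.lξ

theorem Bas.gκ {γ ξ κ : Ordinal.{u}} {j : ZFSet.{u} → ZFSet.{u}} (h : Bas γ ξ κ j) :
    IsSuccLimit (min γ κ) := lmin h.lγ h.lκ

end HD.HW
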