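import Pool.Agent.H97.HV.Targets
import Pool.Agent.H97.PRK.All
import Pool.Agent.H1.HD9.Y5

/-!
# MP_e37c09_lc: the model HOD(V_ γ). Regularity of the points of the club set
-/

open Ordinal Cardinal Order Set
open scoped ZFSet

universe u

namespace HD.HV

/-! ## Statement-level definitions -/

/-- `ξ` is regular in HOD(V_ (min γ ξ)). -/
def RegN (γ ξ : Ordinal.{u}) : Prop := ∀ τ < ξ, ∀ f, NV (min γ ξ) f →
  ZFSet.IsFunc τ.toZFSet ξ.toZFSet f →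
    ∃ b < ξ, ∀ a c : Ordinal.{u}, ZFSet.pair a.toZFSet c.toZFSet ∈ f → c ≤ b

/-- Some `ξ` in `(δ, κ)` of cofinality less than `δ` is regular in HOD(V_ (min γ ξ)). -/
def RegS (δ γ κ : Ordinal.{u}) : Prop := ∃ ξ, δ < ξ ∧ ξ < κ ∧ IsSuccLimit ξ ∧ ξ.cof.ord < δ ∧
  RegN γ ξ

/-- Club many `ξ < κ` are regular in HOD(V_ (min γ ξ)). -/
def RegC (γ κ : Ordinal.{u}) : Prop := ∃ C, Clb κ C ∧ ∀ ξ ∈ C, ξ < κ → IsSuccLimit ξ ∧ RegN γ ξ

end HD.HV

namespace Pool.Agent.H97.HV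

open _root_.HD HD.PRK HD.HV

theorem hod_nv (h0 : T_PVA.{u}) {γ : Ordinal.{u}} (hγ : 0 < γ) (x : ZFSet.{u}) (hx : HOD x) :
    NV γ x := by
  induction x using ZFSet.inductionOn with
  | _ x ih =>
    obtain ⟨h1, h2⟩ := hod_iff.1 hx
    exact ZFSet.hereditarily_iff.2 ⟨h0.1 γ x hγ h1, fun y hy => ih y hy (h2 y hy)⟩

theorem pair_V {ξ : Ordinal.{u}} (hξ : IsSuccLimit ξ) {a c : Ordinal.{u}} (ha : a < ξ)
    (hc : c < ξ) : ZFSet.pair a.toZFSet c.toZFSet ∈ V_ ξ := by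
  rw [ZFSet.mem_vonNeumann]
  have hm : max a c < ξ := max_lt ha hc
  have h1 := hξ.succ_lt (hξ.succ_lt hm)
  refine lt_of_le_of_lt ?_ h1
  rw [ZFSet.rank_le_iff]
  intro y hy
  have h2 : y.rank ≤ succ (max a c) := by
    rcases ZFSet.mem_pair.1 (show y ∈ ({{a.toZFSet}, {a.toZFSet, c.toZFSet}} : ZFSet.{u}) from hy)
      with rfl | rfl
    · rw [ZFSet.rank_le_iff]
      intro z hz
      rw [ZFSet.mem_singleton.1 hz, rank_toZFSet]
      exact lt_succ_of_le (le_max_left _ _)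
    · rw [ZFSet.rank_le_iff]
      intro z hz
      rcases ZFSet.mem_pair.1 hz with rfl | rfl
      · rw [rank_toZFSet]
        exact lt_succ_of_le (le_max_left _ _)
      · rw [rank_toZFSet]
        exact lt_succ_of_le (le_max_right _ _)
  exact lt_succ_of_le h2

/-- the elements of a function between ordinals -/
theorem isf {α β : Ordinal.{u}} {f : ZFSet.{u}} (hf : ZFSet.IsFunc α.toZFSet β.toZFSet f)
    {p : ZFSet.{u}} (hp : p ∈ f) : ∃ a < α, ∃ c < β, p = ZFSet.pair a.toZFSet c.toZFSet := by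
  obtain ⟨x, hx, y, hy, rfl⟩ := ZFSet.mem_prod.1 (hf.1 hp)
  obtain ⟨a, ha, rfl⟩ := mem_toZFSet_iff.1 hx
  obtain ⟨c, hc, rfl⟩ := mem_toZFSet_iff.1 hy
  exact ⟨a, ha, c, hc, rfl⟩

theorem reg {γ : Ordinal.{u}} {K : Cardinal.{u}} (hK : K.IsRegular) (hK0 : ℵ₀ < K)
    (h : VEN γ K) : RegC γ K.ord := by
  classical
  obtain ⟨C, e, h⟩ := h
  have hcof : ℵ₀ < K.ord.cof := by
    rw [hK.cof_ord]
    exact hK0
  have hpos : (0 : Ordinal.{u}) < K.ord := (Cardinal.isSuccLimit_ord hK0.le).bot_lt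
  have h1 : ∀ z a : Ordinal.{u}, ∃ r < K.ord, ∀ c < K.ord,
      ZFSet.pair a.toZFSet c.toZFSet ∈ e z → ZFSet.pair a.toZFSet r.toZFSet ∈ e z ∧ r ≤ c := by
    intro z a
    by_cases hex : ∃ c < K.ord, ZFSet.pair a.toZFSet c.toZFSet ∈ e z
    · have hne : {c : Ordinal.{u} | ZFSet.pair a.toZFSet c.toZFSet ∈ e z}.Nonempty := by
        obtain ⟨c, -, hc⟩ := hex
        exact ⟨c, hc⟩
      obtain ⟨c0, hc0, hc1⟩ := hex
      refine ⟨sInf {c : Ordinal.{u} | ZFSet.pair a.toZFSet c.toZFSet ∈ e z}, ?_, fun c hc hm =>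
        ⟨csInf_mem hne, csInf_le' hm⟩⟩
      exact lt_of_le_of_lt (csInf_le' (show c0 ∈ _ from hc1)) hc0
    · exact ⟨0, hpos, fun c hc hm => absurd ⟨c, hc, hm⟩ hex⟩
  choose r hr1 hr2 using h1
  obtain ⟨g, hg1, hg2⟩ := Pool.Agent.H1.HD9.Y5.exists_bd hK r hr1
  refine ⟨C ∩ {x | 0 < x ∧ ∀ y < x, g y < x}, HD.All.ci K.ord C _ hcof h.clb
    (HD.All.ve K hK hK0 g hg1), ?_⟩
  rintro ξ ⟨hξC, -, hξg⟩ hξK
  have hlim := h.lim ξ hξC hξK
  refine ⟨hlim, fun τ hτ f hf hfun => ?_⟩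
  have hW : WV γ ξ f := by
    refine ⟨hf, fun p hp => ?_⟩
    obtain ⟨a, ha, c, hc, rfl⟩ := isf hfun hp
    exact pair_V hlim (ha.trans hτ) hc
  obtain ⟨z, hz, hzf⟩ := (h.tr ξ hξC hξK f).1 hW
  refine ⟨g (max z τ), hξg _ (max_lt hz hτ), fun a c hac => ?_⟩
  obtain ⟨a', ha', c', hc', he⟩ := isf hfun hac
  obtain ⟨rfl, rfl⟩ := pair_ord_inj he
  have h2 : ZFSet.pair a.toZFSet c.toZFSet ∈ e z := by
    rw [hzf] at hac
    exact (ZFSet.mem_inter.1 hac).1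
  obtain ⟨h3, h4⟩ := hr2 z a c (hc'.trans hξK) h2
  have h5 : ZFSet.pair a.toZFSet (r z a).toZFSet ∈ f := by
    rw [hzf]
    exact ZFSet.mem_inter.2 ⟨h3, pair_V hlim (ha'.trans hτ) (h4.trans_lt hc')⟩
  obtain ⟨w, -, hw⟩ := hfun.2 a.toZFSet (toZFSet_mem_toZFSet_iff.2 ha')
  have h6 : (r z a).toZFSet = c.toZFSet := (hw _ h5).trans (hw _ hac).symm
  rw [← toZFSet_injective h6]
  exact hg2 (max z τ) ((max_lt hz hτ).trans hξK) z (le_max_left _ _) a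
    (ha'.le.trans (le_max_right _ _))

/-- In the first case no `ξ > δ` of small cofinality is regular in HOD. -/
theorem nrg (h0 : T_PVA.{u}) (hYA : T_YA.{u}) {δ : Ordinal.{u}} (hδ : Extendible δ)
    (hA : CaseA δ) (κ : Ordinal.{u}) {γ : Ordinal.{u}} (hγ : 0 < γ) : ¬ RegS δ γ κ := by
  rintro ⟨ξ, h1, -, h3, h4, hR⟩
  obtain ⟨y, hy1, hy2, hy3, hy4⟩ := hYA δ hδ hA ξ h3 h4
  obtain ⟨D, hD, hDr, hDs, hD0⟩ : ∃ D : Cardinal.{u}, δ = D.ord ∧
      D.IsRegular ∧ D.IsStrongLimit ∧ ℵ₀ < D := by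
    obtain ⟨η, -, θ, j, h⟩ := HD.All.xa δ hδ 0
    exact HD.All.xb δ η θ j h
  subst hD
  set X : Set Ordinal.{u} := {a | a.toZFSet ∈ y} with hX
  have hXd : DS X := hy1.ds
  obtain ⟨v1, v2, v3, -⟩ := HD.All.vh X
  have hnth : DO.{u} fun w => nth X (w 0) (w 1) :=
    HD.All.db (fun a _ => a ∈ X) hXd
  have hex : DO.{u} fun w => ∃ z, nth X (w 0) z := by
    refine DO.ex (R := fun z w => nth X (w 0) z) ?_
    refine (hnth.ren (fun n => if n = 0 then 1 else 0)).congr fun w => ?_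
    simp
  have hRd : DR fun a z => nth X a z ∨ ((¬ ∃ z', nth X a z') ∧ z = 0) :=
    hnth.or (hex.not.and (DO.eqc 1 0))
  set f := rs D.ord ξ (fun a z => nth X a z ∨ ((¬ ∃ z', nth X a z') ∧ z = 0)) with hf
  have hpos : (0 : Ordinal.{u}) < ξ := h3.bot_lt
  have hXξ : ∀ z ∈ X, z < ξ := fun z hz => toZFSet_mem_toZFSet_iff.1 (hy2 hz)
  have hun : ∀ a z z', nth X a z → nth X a z' → z = z' := by
    intro a z z' h5 h6
    rcases lt_trichotomy z z' with h | h | h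
    · exact absurd ((v2 a a z z' h5 h6).2 h) (lt_irrefl _)
    · exact h
    · exact absurd ((v2 a a z' z h6 h5).2 h) (lt_irrefl _)
  have hfun : ZFSet.IsFunc D.ord.toZFSet ξ.toZFSet f := by
    refine ⟨fun p hp => ?_, fun x hx => ?_⟩
    · obtain ⟨a, ha, b, hb, -, rfl⟩ := mem_rs.1 hp
      exact ZFSet.pair_mem_prod.2 ⟨toZFSet_mem_toZFSet_iff.2 ha, toZFSet_mem_toZFSet_iff.2 hb⟩
    · obtain ⟨a, ha, rfl⟩ := mem_toZFSet_iff.1 hx
      by_cases hz : ∃ z, nth X a z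
      · obtain ⟨z, hz⟩ := hz
        refine ⟨z.toZFSet, pair_mem_rs.2 ⟨ha, hXξ z hz.1, Or.inl hz⟩, fun w hw => ?_⟩
        obtain ⟨a', -, b', -, hR', he⟩ := mem_rs.1 hw
        obtain ⟨he1, rfl⟩ := ZFSet.pair_injective he
        have := toZFSet_injective he1
        subst this
        rcases hR' with hR' | ⟨hR', -⟩
        · rw [hun _ _ _ hR' hz]
        · exact absurd ⟨z, hz⟩ hR'
      · refine ⟨(0 : Ordinal.{u}).toZFSet, pair_mem_rs.2 ⟨ha, hpos, Or.inr ⟨hz, rfl⟩⟩,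
          fun w hw => ?_⟩
        obtain ⟨a', -, b', -, hR', he⟩ := mem_rs.1 hw
        obtain ⟨he1, rfl⟩ := ZFSet.pair_injective he
        have := toZFSet_injective he1
        subst this
        rcases hR' with hR' | ⟨-, rfl⟩
        · exact absurd ⟨b', hR'⟩ hz
        · rfl
  have hNV : NV (min γ ξ) f := hod_nv h0 (lt_min hγ hpos) f (hod_rs hRd _ _)
  obtain ⟨b, hb, hbd⟩ := hR D.ord h1 f hNV hfun
  obtain ⟨c, hc, hbc, hcy⟩ := hy4 (succ b) (h3.succ_lt hb)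
  obtain ⟨a, -, hac⟩ := v1 c hcy
  have haD : a < D.ord := by
    by_contra hcon
    have hDa : D.ord ≤ a := not_lt.1 hcon
    have h5 : ∀ i < D.ord, ∃ z, nth X i z := by
      intro i hi
      obtain ⟨z, -, hz⟩ := v3 a c hac i (hi.trans_le hDa)
      exact ⟨z, hz⟩
    choose! G hG using h5
    have h6 := few_iff.1 hy3
    have h7 : Cardinal.lift.{u + 1} D ≤ #X := by
      have h8 : #(Iio D.ord) = Cardinal.lift.{u + 1} D := by
        rw [Cardinal.mk_Iio_ordinal, Cardinal.card_ord]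
      rw [← h8]
      refine Cardinal.mk_le_of_injective (f := fun i : Iio D.ord =>
        (⟨G i.1, (hG i.1 i.2).1⟩ : X)) ?_
      intro i k hik
      have h9 : G i.1 = G k.1 := congrArg Subtype.val hik
      have h10 := hG i.1 i.2
      have h11 := hG k.1 k.2
      rw [← h9] at h11
      apply Subtype.ext
      rcases lt_trichotomy i.1 k.1 with h | h | h
      · exact absurd ((v2 _ _ _ _ h10 h11).1 h) (lt_irrefl _)
      · exact h
      · exact absurd ((v2 _ _ _ _ h11 h10).1 h) (lt_irrefl _)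
    exact absurd h7 (not_le.2 h6)
  have h12 := hbd a c (pair_mem_rs.2 ⟨haD, hc, Or.inl hac⟩)
  exact absurd ((succ_le_iff.1 hbc).trans_le h12) (lt_irrefl _)

end Pool.Agent.H97.HV
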