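import Pool.Agent.H97.HV.Targets
import Pool.Agent.H97.PRK.All

/-!
# MP_e37c09_lc: the model HOD(V_ γ). Assembly
-/

open Ordinal Cardinal Order Set
open scoped ZFSet

universe u

namespace Pool.Agent.H97.HV

open _root_.HD HD.PRK HD.HV

/-- the basic facts on the extendible cardinal -/
theorem base {δ : Ordinal.{u}} (hδ : Extendible δ) : ∃ D : Cardinal.{u}, δ = D.ord ∧
    D.IsRegular ∧ D.IsStrongLimit ∧ ℵ₀ < D := by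
  obtain ⟨η, -, θ, j, h⟩ := HD.All.xa δ hδ 0
  exact HD.All.xb δ η θ j h

/-- points of cofinality `ω` above `η` in a club set -/
theorem pt {K : Cardinal.{u}} (hK : K.IsRegular) (hK0 : ℵ₀ < K) {C : Set Ordinal.{u}}
    (hC : Clb K.ord C) {η : Ordinal.{u}} (hη : η < K.ord) :
    ∃ a < K.ord, a ∈ C ∧ η < a ∧ a.cof.ord = ω := by
  have hcof : ℵ₀ < K.ord.cof := by
    rw [hK.cof_ord]
    exact hK0
  have hgt := Pool.Agent.H97.PRK.clb_gt hK0.le hη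
  have hpos := HD.All.vc ℵ₀ K.ord Cardinal.isRegular_aleph0 hcof
  obtain ⟨a, ha, ⟨h1, h2⟩, -, h3⟩ := hpos _ (HD.All.ci K.ord C _ hcof hC hgt)
  refine ⟨a, ha, h1, h2, ?_⟩
  have h4 : a.cof.ord = (ℵ₀ : Cardinal.{u}).ord := h3
  rw [h4, Cardinal.ord_aleph0]

theorem pf_VEN (hFOD : T_FOD.{u}) (hCOD : T_COD.{u}) (hCOH : T_COH.{u}) (hCNT : T_CNT.{u})
    (hENM : T_ENM.{u}) (hTRA : T_TRA.{u}) (hCLO : T_CLO.{u}) (hEMB : T_EMB.{u}) :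
    T_VEN.{u} := by
  intro δ hext hA K hK hδK γ hfit
  obtain ⟨D, hD, hDr, hDs, hD0⟩ := base hext
  subst hD
  have hDK : D < K := Cardinal.ord_lt_ord.1 hδK
  have hK0 : ℵ₀ < K := hD0.trans hDK
  have hcof : ℵ₀ < K.ord.cof := by
    rw [hK.cof_ord]
    exact hK0
  obtain ⟨δ₀, hδ₀, -, hV⟩ := (HD.All.m14 D.ord hext).resolve_left hA 0
    (Cardinal.isSuccLimit_ord hD0.le).bot_lt
  obtain ⟨hVE, hVI, -⟩ := hV K hK (hδ₀.trans hδK)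
  obtain ⟨en, hen⟩ := HD.All.en
  have hω : (ℵ₀ : Cardinal.{u}).ord < D.ord := Cardinal.ord_lt_ord.2 hD0
  have hNS := HD.All.xl D.ord hext hA ℵ₀ K Cardinal.isRegular_aleph0 hω hK hδK
  have hNSX := HD.All.ha D.ord (ℵ₀ : Cardinal.{u}).ord K.ord hNS
  have hat := HD.All.hb en hen D ℵ₀ K hDr hDs hD0 Cardinal.isRegular_aleph0 hD0 hK hDK hNSX
  obtain ⟨c, -, hc⟩ := hat univ (DO.cst True) (HD.All.vc ℵ₀ K.ord Cardinal.isRegular_aleph0 hcof)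
  have hFod : Fod en γ K := fun Q h1 h2 h3 => hFOD en hen ℵ₀ K hK hK0 ⟨c, hc⟩ γ hfit Q h1 h2 h3
  have hCdg : ∀ l < γ, ∃ J, Cdg γ l K J := hCOD en hen K hK hK0 γ hfit hFod
  obtain ⟨e, he, hon⟩ := hENM K hK hK0 γ hfit (fun l hl => by
    obtain ⟨J, hJ⟩ := hCdg l hl
    exact hCNT K hK hK0 hVE γ l J hJ)
  have hCoh : Coh γ K := fun l hl S R hS hR => by
    obtain ⟨J, hJ⟩ := hCdg l hl
    exact hCOH K hK hK0 hVI γ l J hJ S R hS hR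
  obtain ⟨C1, hC1, h1⟩ := hTRA K hK hK0 γ hfit hCoh e hon
  obtain ⟨C2, hC2, h2⟩ := hCLO K hK hK0 γ hfit e he
  have h12 := HD.All.ci K.ord C1 C2 hcof hC1 hC2
  have htr : ∀ ξ ∈ C1 ∩ C2, ξ < K.ord → IsSuccLimit ξ ∧
      ∀ x, WV γ ξ x ↔ ∃ ζ < ξ, x = e ζ ∩ V_ ξ := by
    intro ξ hξ hξK
    refine ⟨(h2 ξ hξ.2 hξK).1, fun x => ⟨fun hx => h1 ξ hξ.1 hξK x hx, ?_⟩⟩
    rintro ⟨ζ, hζ, rfl⟩
    exact ((h2 ξ hξ.2 hξK).2 ζ hζ).2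
  obtain ⟨C3, hC3, h3⟩ := hEMB K hK hK0 γ hfit.lim e (C1 ∩ C2) he hon h12 htr
  exact ⟨C1 ∩ C2 ∩ C3, e, HD.All.ci K.ord _ C3 hcof h12 hC3,
    fun ξ hξ hξK => (htr ξ hξ.1 hξK).1, he, hon, fun ξ hξ hξK => (htr ξ hξ.1 hξK).2,
    fun ξ hξ hξK ζ hζ => ((h2 ξ hξ.1.2 hξK).2 ζ hζ).1, fun ξ hξ hξK => h3 ξ hξ.2 hξK⟩

theorem pf_MAIN (hFIL : T_FIL.{u}) (hFI1 : T_FI1.{u}) (hNOM : T_NOM.{u}) (hVEN : T_VEN.{u})
    (hNEM : T_NEM.{u}) (hINN : T_INN.{u}) (hHNA : T_HNA.{u}) : HD.HV.T_MAIN.{u} := by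
  intro δ hδ K hK hδK γ hfit
  obtain ⟨D, hD, hDr, hDs, hD0⟩ := base hδ
  have hω : ω < δ := by
    rw [hD, ← Cardinal.ord_aleph0]
    exact Cardinal.ord_lt_ord.2 hD0
  have hK0 : ℵ₀ < K := by
    rw [hD] at hδK
    exact hD0.trans (Cardinal.ord_lt_ord.1 hδK)
  have a1 : ¬ CaseA δ → FIL δ γ K := fun hA => hFIL δ hδ hA K hK hδK γ hfit
  have a2 : FIL δ γ K → MCof δ γ K.ord := hFI1 δ hω K hK hK0 γ hfit
  have a3 : MCof δ γ K.ord → ¬ CaseA δ := fun h hA => hNOM δ hδ hA K hK hδK γ hfit.lim h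
  have a4 : ¬ CaseA δ → VEN γ K := fun hA => hVEN δ hδ hA K hK hδK γ hfit
  have a5 : VEN γ K → EmbS δ γ K.ord := by
    rintro ⟨C, e, h⟩
    obtain ⟨ξ, h1, h2, h3, h4⟩ := pt hK hK0 h.clb hδK
    exact ⟨ξ, h3, h1, h.lim ξ h2 h1, by rw [h4]; exact hω, h.emb ξ h2 h1⟩
  have a6 : EmbS δ γ K.ord → ¬ CaseA δ := fun h hA => hNEM δ hδ hA K hK hδK γ hfit.lim h
  have a7 : ¬ CaseA δ → INDN δ γ K.ord := fun hA => hINN δ hδ hA K hK hδK γ hfit (a4 hA)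
  have hγ : 0 < γ := hfit.lim.bot_lt
  have a8 : INDN δ γ K.ord → ¬ CaseA δ := fun h hA => hHNA δ hδ hA K hK hδK γ hγ h
  exact ⟨⟨fun h => a2 (a1 h), a3⟩, ⟨a1, fun h => a3 (a2 h)⟩, ⟨fun h => a5 (a4 h), a6⟩,
    ⟨a4, fun h => a6 (a5 h)⟩, ⟨a7, a8⟩⟩

end Pool.Agent.H97.HV
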