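import Pool.Agent.H97.HV.Targets
import Mathlib.SetTheory.Cardinal.Regular
import Mathlib.SetTheory.ZFC.VonNeumann

/-!
# MP_e37c09_lc: the model HOD(V_ γ). The pairs `(γ, κ)` of the theorem
-/

open Ordinal Cardinal Order Set
open scoped ZFSet

universe u

namespace Pool.Agent.H97.HV

open _root_.HD HD.PRK HD.HV

theorem sz_iff {ν : Cardinal.{u}} {Z : ZFSet.{u}} : NF.Sz ν Z ↔ ZFSet.card Z ≤ ν := by
  have hν : #(Iio ν.ord) = Cardinal.lift.{u + 1} ν := by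
    rw [Cardinal.mk_Iio_ordinal, Cardinal.card_ord]
  constructor
  · rintro ⟨e, he⟩
    rw [← Cardinal.lift_le.{u + 1}, ← ZFSet.cardinalMk_coe_sort, ← hν]
    have h : ∀ x : Z, ∃ a : Iio ν.ord, x.1 = e a.1 := fun x => by
      obtain ⟨a, ha, hx⟩ := he x.1 x.2
      exact ⟨⟨a, ha⟩, hx⟩
    choose f hf using h
    refine Cardinal.mk_le_of_injective (f := f) fun x y hxy => ?_
    apply Subtype.ext
    rw [hf x, hf y, hxy]
  · intro h
    rcases Z.eq_empty_or_nonempty with rfl | ⟨z, hz⟩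
    · exact ⟨fun _ => ∅, fun x hx => absurd hx (ZFSet.notMem_empty x)⟩
    · rw [← Cardinal.lift_le.{u + 1}, ← ZFSet.cardinalMk_coe_sort, ← hν] at h
      obtain ⟨f⟩ := h
      classical
      refine ⟨fun a => if h : ∃ x : Z, (f x).1 = a then (Classical.choose h).1 else ∅,
        fun x hx => ⟨(f ⟨x, hx⟩).1, (f ⟨x, hx⟩).2, ?_⟩⟩
      have h1 : ∃ y : Z, (f y).1 = (f ⟨x, hx⟩).1 := ⟨⟨x, hx⟩, rfl⟩
      have h2 := Classical.choose_spec h1
      have h3 : Classical.choose h1 = ⟨x, hx⟩ := f.injective (Subtype.ext h2)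
      simp only [dif_pos h1, h3]

/-- The condition on `γ` and `κ`. -/
theorem fit_iff {γ : Ordinal.{u}} {K : Cardinal.{u}} :
    Fit γ K ↔ IsSuccLimit γ ∧ γ ≤ K.ord ∧ ∀ l < γ, ZFSet.card (V_ l) < K := by
  constructor
  · intro h
    refine ⟨h.lim, h.le, fun l hl => ?_⟩
    obtain ⟨ν, h1, h2⟩ := h.few l hl
    exact (sz_iff.1 h2).trans_lt h1
  · rintro ⟨h1, h2, h3⟩
    exact ⟨h1, h2, fun l hl => ⟨_, h3 l hl, sz_iff.2 le_rfl⟩⟩

theorem card_V_lt {S : Cardinal.{u}} (hS : S.IsInaccessible) {l : Ordinal.{u}} (hl : l < S.ord) :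
    ZFSet.card (V_ l) < S := by
  rw [ZFSet.card_vonNeumann]
  calc preBeth l < preBeth S.ord := preBeth_strictMono hl
    _ = S := hS.preBeth_ord

/-- All limit ordinals `γ ≤ κ` if `κ` is inaccessible. -/
theorem fit_all {K : Cardinal.{u}} (hK : K.IsInaccessible) {γ : Ordinal.{u}} (h : IsSuccLimit γ)
    (h2 : γ ≤ K.ord) : Fit γ K :=
  fit_iff.2 ⟨h, h2, fun _ hl => card_V_lt hK (hl.trans_le h2)⟩

/-- All limit ordinals `γ ≤ S` if `S ≤ κ` is inaccessible. -/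
theorem fit_le {S K : Cardinal.{u}} (hS : S.IsInaccessible) (hSK : S ≤ K) {γ : Ordinal.{u}}
    (h : IsSuccLimit γ) (h2 : γ ≤ S.ord) : Fit γ K :=
  fit_iff.2 ⟨h, h2.trans (Cardinal.ord_le_ord.2 hSK), fun _ hl =>
    (card_V_lt hS (hl.trans_le h2)).trans_le hSK⟩

/-- All `κ` greater than the cardinality of `V_ γ`. -/
theorem fit_card {K : Cardinal.{u}} {γ : Ordinal.{u}} (h : IsSuccLimit γ)
    (h2 : ZFSet.card (V_ γ) ≤ K) : Fit γ K := by
  rw [ZFSet.card_vonNeumann] at h2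
  refine fit_iff.2 ⟨h, ?_, fun l hl => ?_⟩
  · have h3 : StrictMono fun a : Ordinal.{u} => (preBeth a).ord := fun a b hab =>
      Cardinal.ord_lt_ord.2 (preBeth_strictMono hab)
    exact (h3.le_apply).trans (Cardinal.ord_le_ord.2 h2)
  · rw [ZFSet.card_vonNeumann]
    exact (preBeth_strictMono hl).trans_le h2

end Pool.Agent.H97.HV
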