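import Pool.Agent.H97.HV.Fin

/-!
# MP_e37c09_lc: classes of small sets in HOD(V_ γ) modulo the club sets. Definitions and targets
-/

open Ordinal Cardinal Order Set
open scoped ZFSet

universe u

namespace HD.HV

open HD.PRK

/-! ## Statement-level definitions -/

/-- Modulo the club sets there are fewer than `δ` classes of small sets which are definable from
ordinals and an element of `V_ γ`, for each `μ < δ`. -/
def CLSN (δ γ κ : Ordinal.{u}) : Prop := ∀ μ < δ, ω ≤ μ → ∃ τ < δ,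
  ∃ g : Ordinal.{u} → ZFSet.{u} → Prop, ∀ Q, PV γ Q → ∃ i < τ, ∃ C, Clb κ C ∧
    ∀ x, SmS μ κ C x → (x ∈ Q ↔ g i x)

/-- For each `μ < δ` and each function `f` which is definable from ordinals and an element of
`V_ γ` there is a club set `C` such that there are fewer than `δ` ordinals `i` with
`i = f x < min x` for some nonempty set `x` of at most `μ` ordinals of cofinality at most `μ` in
`C`. -/
def RBMN (δ γ κ : Ordinal.{u}) : Prop := ∀ μ < δ, ω ≤ μ → ∀ f, PV γ f →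
  (∀ x y z, ZFSet.pair x y ∈ f → ZFSet.pair x z ∈ f → y = z) → ∃ C, Clb κ C ∧
    Few δ {i | ∃ x, SmS μ κ C x ∧ ZFSet.pair x i.toZFSet ∈ f ∧
      ∀ a : Ordinal.{u}, a.toZFSet ∈ x → i < a}

/-! ## Targets -/

/-- GDW. All levels, with different bounds at the places. -/
def T_GDW : Prop := ∀ δ : Ordinal.{u}, Extendible δ → ¬ CaseA δ → ∀ K : Cardinal.{u},
  K.IsRegular → δ < K.ord → ∀ μ < δ, ω ≤ μ → ∀ F, OD F →
    (∀ i < K.ord, ∃ l : Ordinal.{u}, (∃ ν < K, NF.Sz ν (V_ (succ l))) ∧ ∀ x a : ZFSet.{u},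
      ZFSet.pair x (ZFSet.pair i.toZFSet a) ∈ F → a ∈ V_ l) →
    ∀ n < K.ord, GdV δ μ K.ord F n

/-- FPT. The finest partition. -/
def T_FPT : Prop := ∀ δ : Ordinal.{u}, Extendible δ → ¬ CaseA δ → ∀ K : Cardinal.{u},
  K.IsRegular → δ < K.ord → ∀ γ, Fit γ K → ∀ μ < δ, ω ≤ μ → ∃ F τ, OD F ∧ τ < δ ∧
    GdV δ μ K.ord F τ ∧ ∀ l < γ, ∀ R, OD R → (∀ x a, ZFSet.pair x a ∈ R → a ∈ V_ l) →
      ∃ C, Clb K.ord C ∧ ∀ x y, SmS μ K.ord C x → SmS μ K.ord C y → AgV F x y τ →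
        ∀ a, ZFSet.pair x a ∈ R ↔ ZFSet.pair y a ∈ R

/-- CLN. -/
def T_CLN : Prop := ∀ δ : Ordinal.{u}, Extendible δ → ¬ CaseA δ → ∀ K : Cardinal.{u},
  K.IsRegular → δ < K.ord → ∀ γ, Fit γ K → CLSN δ γ K.ord

/-- RBN. -/
def T_RBN : Prop := ∀ δ : Ordinal.{u}, Extendible δ → ¬ CaseA δ → ∀ K : Cardinal.{u},
  K.IsRegular → δ < K.ord → ∀ γ, Fit γ K → RBMN δ γ K.ord

/-- ATM. An atom gives a measure. -/
def T_ATM : Prop := ∀ δ : Ordinal.{u}, Extendible δ → ∀ K : Cardinal.{u}, K.IsRegular →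
  δ < K.ord → NS δ ω K.ord → ∀ γ, Fit γ K → MCof δ γ K.ord

/-- EQC. -/
def T_EQC : Prop := ∀ δ : Ordinal.{u}, Extendible δ → CaseA δ → ∀ K : Cardinal.{u},
  K.IsRegular → δ < K.ord → ∀ γ, Fit γ K → ¬ CLSN δ γ K.ord

/-- EQR. -/
def T_EQR : Prop := ∀ δ : Ordinal.{u}, Extendible δ → CaseA δ → ∀ K : Cardinal.{u},
  K.IsRegular → δ < K.ord → ∀ γ, Fit γ K → ¬ RBMN δ γ K.ord

end HD.HV
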