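import Pool.Agent.H97.HV.Final
import Pool.Agent.H97.HW.NEC
import Pool.Agent.H88.HV.TRA
import Pool.Agent.H90.HV.FDS
import Pool.Agent.H2.HW.TR
import Pool.Agent.H14.HW.TSH
import Pool.Agent.H62.HW.CHC
import Pool.Agent.H76.HW.LOS
import Pool.Agent.H27.HW.WFT
import Pool.Agent.H14.HW.SL
import Pool.Agent.H35.HW.WSD
import Pool.Agent.H52.HW.WPI
import Pool.Agent.H51.HW.IDC
import Pool.Agent.H73.HW.ST
import Pool.Agent.H97.HW.ELE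
import Pool.Agent.H99.HW.POW
import Pool.Agent.H5.HW.WMAI
import Pool.Agent.H97.HW.YP
import Pool.Agent.H1.HW.WCLB
import Pool.Agent.H19.HW.NAE
import Pool.Agent.H79.HV.WNSE

/-!
# MP_e37c09_lc: the second case and the models HOD(V_ γ). The theorem
-/

open Ordinal Cardinal Order Set
open scoped ZFSet

universe u

namespace Pool.Agent.H97.HV

open _root_.HD HD.PRK HD.HV

theorem TRA : T_TRA.{u} := Pool.Agent.H88.HV.pf_TRA WZF UNI Pool.Agent.H90.HV.pf_FDS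
theorem WTR : HD.HW.T_TR.{u} := HD.HW.H2.pf_TR
theorem WTSH : HD.HW.T_TSH.{u} := HD.HW.H14.pf_TSH
theorem WLOS : HD.HW.T_LOS.{u} := HD.HW.H76.pf_LOS WTR WTSH HD.HW.H62.pf_CHC
theorem WWFT : HD.HW.T_WFT.{u} := HD.HW.H27.pf_WFT WTSH
theorem WSL : HD.HW.T_SL.{u} := HD.HW.H14.pf_SL WTR WTSH
theorem WSD : HD.HW.T_SD.{u} := HD.HW.H35.pf_SD WTR WTSH
theorem WPI : HD.HW.T_PI.{u} := HD.HW.H52.pf_PI WLOS WTR WWFT WSL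
theorem WIDC : HD.HW.T_IDC.{u} := HD.HW.H51.pf_IDC WSD
theorem WELE : HD.HW.T_ELE.{u} := HD.HW.H97.pf_ELE WLOS WTR HD.HW.H73.pf_ST
theorem WPOW : HD.HW.T_POW.{u} := HD.HW.H99.pf_POW WIDC WTSH
theorem WMAI : HD.HW.T_MAI.{u} := HD.HW.H5.pf_MAI WPI WIDC WELE WPOW
theorem WCLB : HD.HW.T_CLB.{u} := HD.HW.H1.pf_CLB (HD.HW.H97.pf_YP PVA)
theorem WNEC : HD.HW.T_NEC.{u} := HD.HW.H97.pf_NEC WMAI WCLB
theorem WNAE : HD.HW.T_NAE.{u} := HD.HW.H19.pf_NAE YA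
theorem WNSE : HD.HW.T_NSE.{u} := Pool.Agent.H79.HV.pf_NSE

/-- The theorem. -/
theorem choiceless {δ : Ordinal.{u}} (hδ : Extendible δ) :
    ((∀ K : Cardinal.{u}, K.IsInaccessible → ∀ γ : Ordinal.{u}, IsSuccLimit γ → γ ≤ K.ord →
        Fit γ K) ∧
      (∀ K : Cardinal.{u}, δ ≤ K.ord → ∀ γ : Ordinal.{u}, IsSuccLimit γ → γ ≤ δ → Fit γ K) ∧
      (∀ (K : Cardinal.{u}) (γ : Ordinal.{u}), IsSuccLimit γ → ZFSet.card (V_ γ) ≤ K →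
        Fit γ K) ∧
      ∀ γ : Ordinal.{u}, IsSuccLimit γ → ∀ x ∈ V_ γ, NV γ x) ∧
    ∀ K : Cardinal.{u}, K.IsRegular → δ < K.ord → ∀ γ : Ordinal.{u}, Fit γ K →
      ((¬ CaseA δ ↔ MCof δ γ K.ord) ∧ (¬ CaseA δ ↔ HD.HV.FIL δ γ K) ∧
        (¬ CaseA δ ↔ RegS δ γ K.ord) ∧ (¬ CaseA δ ↔ RegC γ K.ord) ∧
        (¬ CaseA δ ↔ EmbS δ γ K.ord) ∧ (¬ CaseA δ ↔ VEN γ K) ∧
        (¬ CaseA δ ↔ INDN δ γ K.ord) ∧ (¬ CaseA δ ↔ CLSN δ γ K.ord) ∧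
        (¬ CaseA δ ↔ RBMN δ γ K.ord)) ∧
      ((∀ μ : Cardinal.{u}, K = succ μ → μ.ord.cof ≠ ℵ₀) →
        (¬ CaseA δ ↔ NES δ γ K.ord) ∧ (¬ CaseA δ ↔ NEC γ K.ord)) ∧
      (δ ≤ γ → NoBdd δ γ K.ord) :=
  ⟨fits hδ, fun K hK hδK _ hγ => ⟨crit' TRA hδ hK hδK hγ,
    fun hμ => whole' TRA WNEC WNAE WNSE hδ hK hδK hμ hγ, nbd δ hδ K hK hδK _ hγ⟩⟩

end Pool.Agent.H97.HV
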