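import Pool.Agent.H97.HV.Asm
import Pool.Agent.H97.HV.Reg
import Pool.Agent.H14.HV.PVA
import Pool.Agent.H14.HV.PVD
import Pool.Agent.H72.HV.UNI
import Pool.Agent.H60.HV.ETR
import Pool.Agent.H46.HV.DEC
import Pool.Agent.H94.HV.MIN
import Pool.Agent.H50.HV.MEA
import Pool.Agent.H92.HV.FIL
import Pool.Agent.H1.HV.FI1
import Pool.Agent.H55.HV.YA
import Pool.Agent.H13.HVY.YR
import Pool.Agent.H11.HV.NMF
import Pool.Agent.H90.HV.DGN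
import Pool.Agent.H57.HV.NOM
import Pool.Agent.H64.HV.WZF
import Pool.Agent.H31.HV.SUB
import Pool.Agent.H78.HV.WSZ
import Pool.Agent.H19.HV.FOD
import Pool.Agent.H2.HV.COD
import Pool.Agent.H88.HV.COH
import Pool.Agent.H67.HV.CNT
import Pool.Agent.H91.HV.ENM
import Pool.Agent.H79.HV.CLO
import Pool.Agent.H96.HV.EMB
import Pool.Agent.H49.HV.NEM
import Pool.Agent.H40.HV.GCN
import Pool.Agent.H1.HV.HMN
import Pool.Agent.H52.HV.AMN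
import Pool.Agent.H80.HV.INN
import Pool.Agent.H32.HV.HNA

/-!
# MP_e37c09_lc: the model HOD(V_ γ). The first part
-/

open Ordinal Cardinal Order Set
open scoped ZFSet

universe u

namespace Pool.Agent.H97.HV

open _root_.HD HD.PRK HD.HV

theorem PVA : T_PVA.{u} := Pool.Agent.H14.HV.pf_PVA
theorem PVD : T_PVD.{u} := Pool.Agent.H14.HV.pf_PVD
theorem UNI : T_UNI.{u} := Pool.Agent.H72.HV.pf_UNI
theorem DEC : T_DEC.{u} := Pool.Agent.H46.HV.pf_DEC UNI Pool.Agent.H60.HV.pf_ETR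
theorem MIN : T_MIN.{u} := Pool.Agent.H94.HV.pf_MIN PVA PVD
theorem MEA : T_MEA.{u} := Pool.Agent.H50.HV.pf_MEA PVA DEC MIN
theorem FIL : T_FIL.{u} := Pool.Agent.H92.HV.pf_FIL MEA
theorem FI1 : T_FI1.{u} := Pool.Agent.H1.HV.pf_FI1 PVA
theorem YA : T_YA.{u} := Pool.Agent.H55.HV.pf_YA
theorem YR : T_YR.{u} := Pool.Agent.H13.HVY.pf_YR YA
theorem NMF : T_NMF.{u} := Pool.Agent.H11.HV.pf_NMF PVA
theorem DGN : T_DGN.{u} := Pool.Agent.H90.HV.pf_DGN PVA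
theorem NOM : T_NOM.{u} := Pool.Agent.H57.HV.pf_NOM YR NMF DGN
theorem WZF : T_WZF.{u} := Pool.Agent.H64.HV.pf_WZF PVA PVD
theorem SUB : T_SUB.{u} := Pool.Agent.H31.HV.pf_SUB PVA UNI
theorem WSZ : T_WSZ.{u} := Pool.Agent.H78.HV.pf_WSZ PVA WZF SUB
theorem FOD : T_FOD.{u} := Pool.Agent.H19.HV.pf_FOD PVA DEC
theorem COD : T_COD.{u} := Pool.Agent.H2.HV.pf_COD PVA WZF WSZ
theorem COH : T_COH.{u} := Pool.Agent.H88.HV.pf_COH WZF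
theorem CNT : T_CNT.{u} := Pool.Agent.H67.HV.pf_CNT WZF
theorem ENM : T_ENM.{u} := Pool.Agent.H91.HV.pf_ENM PVA UNI WZF
theorem CLO : T_CLO.{u} := Pool.Agent.H79.HV.pf_CLO PVA
theorem EMB : T_EMB.{u} := Pool.Agent.H96.HV.pf_EMB PVA
theorem NEM : T_NEM.{u} := Pool.Agent.H49.HV.pf_NEM PVA YA
theorem GCN : T_GCN.{u} := Pool.Agent.H40.HV.pf_GCN PVA DEC
theorem AMN : T_AMN.{u} := Pool.Agent.H52.HV.pf_AMN PVA
theorem INN : T_INN.{u} := Pool.Agent.H80.HV.pf_INN GCN Pool.Agent.H1.HV.pf_HMN AMN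
theorem HNA : T_HNA.{u} := Pool.Agent.H32.HV.pf_HNA PVA YR

theorem VEN' (hTRA : T_TRA.{u}) : T_VEN.{u} := pf_VEN FOD COD COH CNT ENM hTRA CLO EMB

theorem MAIN' (hTRA : T_TRA.{u}) : HD.HV.T_MAIN.{u} :=
  pf_MAIN FIL FI1 NOM (VEN' hTRA) NEM INN HNA

/-- points of the club set -/
theorem rgs {δ γ : Ordinal.{u}} {K : Cardinal.{u}} (hK : K.IsRegular) (hK0 : ℵ₀ < K)
    (hω : ω < δ) (hδK : δ < K.ord) (h : RegC γ K.ord) : RegS δ γ K.ord := by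
  obtain ⟨C, hC, h⟩ := h
  obtain ⟨ξ, h1, h2, h3, h4⟩ := pt hK hK0 hC hδK
  exact ⟨ξ, h3, h1, (h ξ h2 h1).1, by rw [h4]; exact hω, (h ξ h2 h1).2⟩

theorem REG' (hTRA : T_TRA.{u}) : ∀ δ : Ordinal.{u}, Extendible δ → ∀ K : Cardinal.{u},
    K.IsRegular → δ < K.ord → ∀ γ, Fit γ K →
      (¬ CaseA δ ↔ RegS δ γ K.ord) ∧ (¬ CaseA δ ↔ RegC γ K.ord) := by
  intro δ hδ K hK hδK γ hγ
  obtain ⟨D, hD, hDr, hDs, hD0⟩ := base hδ
  have hω : ω < δ := by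
    rw [hD, ← Cardinal.ord_aleph0]
    exact Cardinal.ord_lt_ord.2 hD0
  have hK0 : ℵ₀ < K := by
    rw [hD] at hδK
    exact hD0.trans (Cardinal.ord_lt_ord.1 hδK)
  have a1 : ¬ CaseA δ → RegC γ K.ord := fun hA => reg hK hK0 (VEN' hTRA δ hδ hA K hK hδK γ hγ)
  have a2 : RegC γ K.ord → RegS δ γ K.ord := rgs hK hK0 hω hδK
  have a3 : RegS δ γ K.ord → ¬ CaseA δ := fun h hA =>
    nrg PVA YA hδ hA K.ord hγ.lim.bot_lt h
  exact ⟨⟨fun h => a2 (a1 h), a3⟩, ⟨a1, fun h => a3 (a2 h)⟩⟩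

end Pool.Agent.H97.HV
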