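import Pool.Agent.H97.HV.All1
import Pool.Agent.H97.HV.Fin
import Pool.Agent.H97.HV.Targets3
import Pool.Agent.H67.HV.LAV
import Pool.Agent.H52.HV.LOV
import Pool.Agent.H46.HV.LFV
import Pool.Agent.H68.HV.LCV
import Pool.Agent.H39.HV.SV1
import Pool.Agent.H94.HV.CNV
import Pool.Agent.H86.HV.CVN
import Pool.Agent.H40.HV.TWV
import Pool.Agent.H27.HV.LCR
import Pool.Agent.H75.HV.LCB
import Pool.Agent.H91.HV.GDV
import Pool.Agent.H91.HV.GDW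
import Pool.Agent.H2.HV.BRV
import Pool.Agent.H67.HV.L3V
import Pool.Agent.H90.HV.DFV
import Pool.Agent.H1.HV.NVL
import Pool.Agent.H41.HV.SMV
import Pool.Agent.H50.HV.NBV
import Pool.Agent.H63.HV.NBC
import Pool.Agent.H1.HV.FPT
import Pool.Agent.H76.HV.CLN
import Pool.Agent.H78.HV.RBN
import Pool.Agent.H2.HV.EQC
import Pool.Agent.H35.HV.EQR

/-!
# MP_e37c09_lc: the model HOD(V_ γ). The second and the third part
-/

open Ordinal Cardinal Order Set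
open scoped ZFSet

universe u

namespace Pool.Agent.H97.HV

open _root_.HD HD.PRK HD.HV

theorem LAV : T_LAV.{u} := Pool.Agent.H67.HV.pf_LAV
theorem LOV : T_LOV.{u} := Pool.Agent.H52.HV.pf_LOV LAV
theorem LFV : T_LFV.{u} := Pool.Agent.H46.HV.pf_LFV LOV
theorem LCV : T_LCV.{u} := Pool.Agent.H68.HV.pf_LCV LAV
theorem SV1 : T_SV1.{u} := Pool.Agent.H39.HV.pf_SV1 LAV
theorem CNV : T_CNV.{u} := Pool.Agent.H94.HV.pf_CNV SV1 LFV
theorem CVN : T_CVN.{u} := Pool.Agent.H86.HV.pf_CVN LOV CNV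
theorem TWV : T_TWV.{u} := Pool.Agent.H40.HV.pf_TWV LFV CVN
theorem LCB : T_LCB.{u} :=
  Pool.Agent.H75.HV.pf_LCB LAV LCV (Pool.Agent.H27.HV.pf_LCR2 LAV LCV)
theorem GDV : T_GDV.{u} := Pool.Agent.H91.HV.pf_GDV TWV LCB
theorem GDW : T_GDW.{u} := Pool.Agent.H91.HV.pf_GDW TWV LCB
theorem BRV : T_BRV.{u} := Pool.Agent.H2.HV.pf_BRV
theorem L3V : T_L3V.{u} := Pool.Agent.H67.HV.pf_L3V LAV TWV GDV BRV
theorem DFV : T_DFV.{u} := Pool.Agent.H90.HV.pf_DFV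
theorem NVL : T_NVL.{u} := Pool.Agent.H1.HV.pf_NVL L3V DFV
theorem SMV : T_SMV.{u} := Pool.Agent.H41.HV.pf_SMV
theorem NBV : T_NBV.{u} := Pool.Agent.H50.HV.pf_NBV PVA NVL SMV
theorem NBC : T_NBC.{u} := Pool.Agent.H63.HV.pf_NBC PVA SMV
theorem FPT : T_FPT.{u} := Pool.Agent.H1.HV.pf_FPT TWV GDW LOV
theorem CLN : T_CLN.{u} := Pool.Agent.H76.HV.pf_CLN PVA FPT
theorem RBN : T_RBN.{u} := Pool.Agent.H78.HV.pf_RBN PVA FPT UNI

/-- No new bounded subsets, in both cases. -/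
theorem nbd : ∀ δ : Ordinal.{u}, Extendible δ → ∀ K : Cardinal.{u}, K.IsRegular → δ < K.ord →
    ∀ γ, Fit γ K → δ ≤ γ → NoBdd δ γ K.ord := by
  intro δ hδ K hK hδK γ hγ h
  by_cases hA : CaseA δ
  · exact nsf (NBC δ hδ hA K hK hδK γ hγ h)
  · exact nsf (NBV δ hδ hA K hK hδK γ hγ h)

theorem CLR' (hATM : T_ATM.{u}) : ∀ δ : Ordinal.{u}, Extendible δ → ∀ K : Cardinal.{u},
    K.IsRegular → δ < K.ord → ∀ γ, Fit γ K →
      (¬ CaseA δ ↔ CLSN δ γ K.ord) ∧ (¬ CaseA δ ↔ RBMN δ γ K.ord) := by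
  intro δ hδ K hK hδK γ hγ
  exact ⟨⟨fun hA => CLN δ hδ hA K hK hδK γ hγ, fun h hA =>
      Pool.Agent.H2.HV.pf_EQC PVA hATM NOM δ hδ hA K hK hδK γ hγ h⟩,
    ⟨fun hA => RBN δ hδ hA K hK hδK γ hγ, fun h hA =>
      Pool.Agent.H35.HV.pf_EQR PVA hATM NOM δ hδ hA K hK hδK γ hγ h⟩⟩

end Pool.Agent.H97.HV
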