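import Pool.Agent.H97.HV.Targets6
import Pool.Agent.H97.HV.Asm
import Pool.Agent.H88.HV.MS2

/-!
# MP_e37c09_lc: no measure in the first case
-/

open Ordinal Cardinal Order Set
open scoped ZFSet

universe u

namespace Pool.Agent.H97.HV

open _root_.HD HD.PRK HD.HV

theorem pf_NI2 (h0 : T_PVA.{u}) (h1 : T_NM2.{u}) (h2 : T_SG2.{u}) (h3 : T_MS2.{u}) :
    T_NI2.{u} := by
  rintro δ hδ hA K hs hδK γ hγ ⟨U, hU⟩
  obtain ⟨D, hD, hDr, hDs, hD0⟩ := base hδ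
  have hK0 : ℵ₀ < K := by
    rw [hD] at hδK
    exact hD0.trans (Cardinal.ord_lt_ord.1 hδK)
  rcases hs with ⟨μ, rfl, hμ0, hμ⟩ | ⟨hK, S₀, hS₀, hmax⟩
  · have hDμ : D < μ := by
      rw [hD] at hδK
      refine lt_of_le_of_ne (Order.lt_succ_iff.1 (Cardinal.ord_lt_ord.1 hδK)) ?_
      rintro rfl
      exact hμ hDr
    have hμK : μ.ord < (succ μ).ord := Cardinal.ord_lt_ord.2 (lt_succ μ)
    have ht := Pool.Agent.H88.HV.tail_mem2 h0 h1 hγ hK0 hU.cm hμK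
    obtain ⟨b, hb, hbD, hn⟩ := h2 γ hγ _ (Cardinal.isRegular_succ hμ0) hK0 U hU _ ht
    obtain ⟨hbμ, -⟩ : μ.ord < b ∧ b < (succ μ).ord := by
      have := hbD
      simp only [ord_mem_os] at this
      exact ⟨this.2, hb⟩
    apply hn
    obtain ⟨f, hf, hfun, honto⟩ := (hA μ hμ0 hμ (by
      rw [hD]
      exact Cardinal.ord_lt_ord.2 hDμ)).2 b hbμ hb
    exact ⟨μ.ord, hbμ, f, hf, hfun, fun c hc => by
      obtain ⟨a, ha, hac⟩ := honto c hc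
      exact ⟨a, ha, c, le_rfl, hac⟩⟩
  · obtain ⟨X, hX, h⟩ := h3 γ hγ K hK S₀ hS₀ hmax U hU δ hδK
    obtain ⟨b, hb, hbX, hn⟩ := h2 γ hγ K hK.isRegular hK0 U hU X hX
    obtain ⟨S, rfl, hS0, hSr, hδS⟩ := h b hb hbX
    exact hn (hA S hS0 hSr hδS).1

end Pool.Agent.H97.HV
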