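import Pool.Agent.H97.HV.Targets5

/-!
# MP_e37c09_lc: arbitrary measures of HOD(V_ γ). Targets
-/

open Ordinal Cardinal Order Set
open scoped ZFSet

universe u

namespace HD.HV

open HD.PRK

/-! ## Statement-level definitions -/

/-- `U` is in the class `N`, and in `N` it is a nonprincipal `κ`-complete ultrafilter on `κ`. -/
structure CMeas (N : ZFSet.{u} → Prop) (κ : Ordinal.{u}) (U : ZFSet.{u}) : Prop where
  inN : N U
  sub : ∀ x ∈ U, x ⊆ κ.toZFSet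
  ultra : ∀ x, N x → x ⊆ κ.toZFSet → (x ∈ U ↔ κ.toZFSet \ x ∉ U)
  up : ∀ x ∈ U, ∀ y, N y → x ⊆ y → y ⊆ κ.toZFSet → y ∈ U
  nonpr : ∀ a < κ, {a.toZFSet} ∉ U
  compl : ∀ τ < κ, ∀ f, N f → ZFSet.IsFunc τ.toZFSet U f →
    (κ.toZFSet).sep (fun b => ∀ a x, ZFSet.pair a x ∈ f → b ∈ x) ∈ U

/-- `κ` is measurable in HOD(V_ γ). -/
def MeaN (γ κ : Ordinal.{u}) : Prop := ∃ U, CMeas (NV γ) κ U

theorem NMeas.cm {N : ZFSet.{u} → Prop} {κ : Ordinal.{u}} {U : ZFSet.{u}} (h : NMeas N κ U) :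
    CMeas N κ U := ⟨h.inN, h.sub, h.ultra, h.up, h.nonpr, h.compl⟩

/-! ## Targets -/

/-- a measure which is normal for relations which are definable from ordinals -/
structure DMeas (N : ZFSet.{u} → Prop) (κ : Ordinal.{u}) (U : ZFSet.{u}) : Prop where
  cm : CMeas N κ U
  dgn : ∀ R : Ordinal.{u} → Ordinal.{u} → Prop, DR R →
    ∃ (A : Set Ordinal.{u}) (D : ZFSet.{u}), D ∈ U ∧
      ∀ b : Ordinal.{u}, b.toZFSet ∈ D → ∀ η < b, (R b η ↔ η ∈ A)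

/-- NM2. Facts on measures. -/
def T_NM2 : Prop := ∀ γ : Ordinal.{u}, IsSuccLimit γ → ∀ K : Cardinal.{u}, ℵ₀ < K → ∀ U,
  CMeas (NV γ) K.ord U → (∀ x ∈ U, ∀ y ∈ U, x ∩ y ∈ U) ∧
    ∀ x ∈ U, ∀ b < K.ord, ∃ a : Ordinal.{u}, b ≤ a ∧ a < K.ord ∧ a.toZFSet ∈ x

/-- SG2. No such measure concentrates on ordinals which are singular in HOD. -/
def T_SG2 : Prop := ∀ γ : Ordinal.{u}, IsSuccLimit γ → ∀ K : Cardinal.{u}, K.IsRegular →
  ℵ₀ < K → ∀ U, DMeas (NV γ) K.ord U → ∀ D ∈ U, ∃ b < K.ord, b.toZFSet ∈ D ∧ ¬ SingHOD b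

/-- MS2. A measure on an inaccessible cardinal which is not a limit of inaccessible cardinals
concentrates on singular cardinals. -/
def T_MS2 : Prop := ∀ γ : Ordinal.{u}, IsSuccLimit γ → ∀ K : Cardinal.{u}, K.IsInaccessible →
  ∀ S₀ < K, (∀ S : Cardinal.{u}, S.IsInaccessible → S < K → S ≤ S₀) →
    ∀ U, DMeas (NV γ) K.ord U → ∀ δ < K.ord, ∃ D ∈ U, ∀ b : Ordinal.{u}, b < K.ord →
      b.toZFSet ∈ D → ∃ S : Cardinal.{u}, b = S.ord ∧ ℵ₀ ≤ S ∧ ¬ S.IsRegular ∧ δ < b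

/-- NI2. No such measure in the first case. -/
def T_NI2 : Prop := ∀ δ : Ordinal.{u}, Extendible δ → CaseA δ → ∀ K : Cardinal.{u},
  SucIna K → δ < K.ord → ∀ γ : Ordinal.{u}, IsSuccLimit γ → ¬ ∃ U, DMeas (NV γ) K.ord U

/-- `f` is a function from `κ` to `κ` which is definable from `U` and ordinals and not bounded on a set
in `U`. -/
def UBf (κ : Ordinal.{u}) (U f : ZFSet.{u}) : Prop := NF.ODp U f ∧
  ZFSet.IsFunc κ.toZFSet κ.toZFSet f ∧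
  ∀ c < κ, (κ.toZFSet).sep (fun b => ∀ d : Ordinal.{u}, ZFSet.pair b d.toZFSet ∈ f → c < d) ∈ U

/-- the function `g` is less than `f` at almost all points -/
def LTf (κ : Ordinal.{u}) (U g f : ZFSet.{u}) : Prop :=
  (κ.toZFSet).sep (fun b => ∀ c d : Ordinal.{u}, ZFSet.pair b c.toZFSet ∈ g →
    ZFSet.pair b d.toZFSet ∈ f → c < d) ∈ U

/-- MIF. A minimal function. -/
def T_MIF : Prop := ∀ γ : Ordinal.{u}, IsSuccLimit γ → ∀ K : Cardinal.{u}, ℵ₀ < K → ∀ U,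
  CMeas (NV γ) K.ord U → ∃ f, UBf K.ord U f ∧ ∀ g, UBf K.ord U g → ¬ LTf K.ord U g f

/-- DM. The image of the measure under the minimal function. -/
def T_DM : Prop := ∀ γ : Ordinal.{u}, IsSuccLimit γ → ∀ K : Cardinal.{u}, K.IsRegular → ℵ₀ < K →
  ∀ U, CMeas (NV γ) K.ord U → ∃ U', DMeas (NV γ) K.ord U'

end HD.HV
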