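import Pool.Agent.H97.HV.All
import Pool.Agent.H97.HV.Targets6
import Pool.Agent.H43.HV.INDH
import Pool.Agent.H17.HV.NM2
import Pool.Agent.H17.HV.DM
import Pool.Agent.H57.HV.SG2
import Pool.Agent.H88.HV.MS2
import Pool.Agent.H97.HV.NI2
import Pool.Agent.H67.HV.MIF

/-!
# MP_e37c09_lc: the second case and the models HOD(V_ γ). The final theorem
-/

open Ordinal Cardinal Order Set
open scoped ZFSet

universe u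

namespace Pool.Agent.H97.HV

open _root_.HD HD.PRK HD.HV

theorem NM2 : T_NM2.{u} := Pool.Agent.H17.HV.pf_NM2 PVA
theorem SG2 : T_SG2.{u} := Pool.Agent.H57.HV.pf_SG2 NM2
theorem MS2 : T_MS2.{u} := Pool.Agent.H88.HV.pf_MS2 PVA NM2
theorem MIF : T_MIF.{u} := Pool.Agent.H67.HV.pf_MIF PVA NM2
theorem DM : HD.HV.T_DM.{u} := Pool.Agent.H17.HV.pf_DM NM2 MIF
theorem NI2 : T_NI2.{u} := pf_NI2 PVA NM2 SG2 MS2

/-- In the first case `κ` is not measurable in HOD(V_ γ). -/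
theorem nmc {δ : Ordinal.{u}} (hδ : Extendible δ) (hA : CaseA δ) {K : Cardinal.{u}}
    (hK : K.IsRegular) (hs : SucIna K) (hδK : δ < K.ord) {γ : Ordinal.{u}} (hγ : IsSuccLimit γ) :
    ¬ MeaN γ K.ord := by
  rintro ⟨U, hU⟩
  obtain ⟨D, hD, hDr, hDs, hD0⟩ := base hδ
  have hK0 : ℵ₀ < K := by
    rw [hD] at hδK
    exact hD0.trans (Cardinal.ord_lt_ord.1 hδK)
  exact NI2 δ hδ hA K hs hδK γ hγ (DM γ hγ K hK hK0 U hU)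

/-- The final theorem. -/
theorem choiceless3 {δ : Ordinal.{u}} (hδ : Extendible δ) :
    ((∀ K : Cardinal.{u}, K.IsInaccessible → ∀ γ : Ordinal.{u}, IsSuccLimit γ → γ ≤ K.ord →
        Fit γ K) ∧
      (∀ K : Cardinal.{u}, δ ≤ K.ord → ∀ γ : Ordinal.{u}, IsSuccLimit γ → γ ≤ δ → Fit γ K) ∧
      (∀ (K : Cardinal.{u}) (γ : Ordinal.{u}), IsSuccLimit γ → ZFSet.card (V_ γ) ≤ K →
        Fit γ K) ∧
      ∀ γ : Ordinal.{u}, IsSuccLimit γ → ∀ x ∈ V_ γ, NV γ x) ∧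
    ∀ K : Cardinal.{u}, K.IsRegular → δ < K.ord → ∀ γ : Ordinal.{u}, Fit γ K →
      (SucIna K → (¬ CaseA δ ↔ MeaN γ K.ord)) ∧
      ((¬ CaseA δ ↔ MCof δ γ K.ord) ∧ (¬ CaseA δ ↔ HD.HV.FIL δ γ K) ∧
        (¬ CaseA δ ↔ RegS δ γ K.ord) ∧ (¬ CaseA δ ↔ RegC γ K.ord) ∧
        (¬ CaseA δ ↔ EmbS δ γ K.ord) ∧ (¬ CaseA δ ↔ VEN γ K) ∧
        (¬ CaseA δ ↔ INDH δ γ K.ord) ∧ (¬ CaseA δ ↔ INDN δ γ K.ord) ∧
        (¬ CaseA δ ↔ INDW δ γ K.ord) ∧ (¬ CaseA δ ↔ CLSN δ γ K.ord) ∧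
        (¬ CaseA δ ↔ RBMN δ γ K.ord)) ∧
      ((∀ μ : Cardinal.{u}, K = succ μ → μ.ord.cof ≠ ℵ₀) →
        (¬ CaseA δ ↔ NES δ γ K.ord) ∧ (¬ CaseA δ ↔ NEC γ K.ord)) ∧
      (δ ≤ γ → NoBdd δ γ K.ord) := by
  obtain ⟨h0, h⟩ := choiceless hδ
  refine ⟨h0, fun K hK hδK γ hγ => ?_⟩
  obtain ⟨⟨h1, h2, h3, h4, h5, h6, h7, h8, h9⟩, h10, h11⟩ := h K hK hδK γ hγ
  obtain ⟨h12, h13⟩ := Pool.Agent.H43.HV.iff_INDH PVA YR hδ hK hδK hγ.lim.bot_lt h7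
  refine ⟨fun hs => ⟨fun hA => ?_, fun hM hA => nmc hδ hA hK hs hδK hγ.lim hM⟩,
    ⟨h1, h2, h3, h4, h5, h6, h12, h7, h13, h8, h9⟩, h10, h11⟩
  obtain ⟨U, hU, -⟩ := h1.1 hA
  exact ⟨U, hU.cm⟩

end Pool.Agent.H97.HV
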