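import Pool.Agent.H97.HV.WDefs

/-!
# MP_e37c09_lc: elementary embeddings of HOD(V_ ξ) into transitive classes. Targets
-/

open Ordinal Cardinal Order Set
open scoped ZFSet

universe u

namespace HD.HW

open HD.PRK HD.HV Pool.Agent.H54.WM

/-- `jj` is an elementary embedding of HOD(V_ (min γ ξ)) into the transitive class `M` which extends
`j`. -/
structure WEmb (γ ξ κ : Ordinal.{u}) (j : ZFSet.{u} → ZFSet.{u}) (M : ZFSet.{u} → Prop)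
    (jj : ZFSet.{u} → ZFSet.{u}) : Prop where
  tra : ∀ x, M x → ∀ y ∈ x, M y
  map : ∀ x, NV (min γ ξ) x → M (jj x)
  elem : ∀ (φ : Fml) (v : ℕ → ZFSet.{u}), (∀ n, NV (min γ ξ) (v n)) →
    (Sat (NV (min γ ξ)) φ v ↔ Sat M φ (jj ∘ v))
  ext : ∀ x, WV γ ξ x → jj x = j x
  low : ∀ x ∈ HW γ κ, M x
  pow : ∀ x, M x → x ⊆ V_ κ → NV (min γ κ) x

/-- TR. Transfer of absolute predicates. -/
def T_TR : Prop := ∀ (γ ξ κ : Ordinal.{u}) (j : ZFSet.{u} → ZFSet.{u}), Bas γ ξ κ j →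
  (∀ R : ZFSet.{u} → ZFSet.{u} → (ℕ → ZFSet.{u}) → Prop,
    (D0 fun v => R (v 0) (v 1) (fun n => v (n + 2))) → ∀ v, (∀ n, WV γ ξ (v n)) →
      ((∀ w ∈ HW γ ξ, ∀ w' ∈ HW γ ξ, R w w' v) ↔
        ∀ w ∈ HW γ κ, ∀ w' ∈ HW γ κ, R w w' (j ∘ v))) ∧
  j (HW γ ξ) = HW γ κ ∧ j ∅ = ∅

/-- TSH. The truth sets are in the class. -/
def T_TSH : Prop := ∀ (γ ξ : Ordinal.{u}), IsSuccLimit (min γ ξ) → ∀ (φ : Fml)
  (f : ℕ → ZFSet.{u}), (∀ n, NV (min γ ξ) (f n)) → NV (min γ ξ) (TS γ ξ φ f)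

/-- CHC. Choice with parameters: there is a function `h` in the class such that for each `w` for which
there is a witness some `h (w, s)` is a witness. -/
def T_CHC : Prop := ∀ (γ ξ : Ordinal.{u}), IsSuccLimit (min γ ξ) → IsSuccLimit ξ → ∀ (φ : Fml)
  (f : ℕ → ZFSet.{u}), (∀ n, NV (min γ ξ) (f n)) →
  ∃ h, NV (min γ ξ) h ∧ ∀ w ∈ HW γ ξ,
    (∃ y, NV (min γ ξ) y ∧ Sat (NV (min γ ξ)) φ (cons y fun n => ap (f n) (pr n w))) →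
      ∃ s ∈ HW γ ξ, Sat (NV (min γ ξ)) φ
        (cons (ap h (ZFSet.pair w s)) fun n => ap (f n) (pr n w))

/-- LOS. The theorem of Los. -/
def T_LOS : Prop := ∀ (γ ξ κ : Ordinal.{u}) (j : ZFSet.{u} → ZFSet.{u}), Bas γ ξ κ j →
  ∀ (φ : Fml) (t : ℕ → Tm γ ξ κ) (k : ℕ) (c : ZFSet.{u}), bd φ ≤ k → c ∈ HW γ κ →
    (∀ n < k, pr n c = (t n).b) →
      (SatT (ME j) (MQ j) φ t ↔ c ∈ j (TS γ ξ φ fun n => (t n).f))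

/-- WFT. The structure of the terms is well-founded. -/
def T_WFT : Prop := ∀ (γ ξ κ : Ordinal.{u}) (j : ZFSet.{u} → ZFSet.{u}), Bas γ ξ κ j →
  CC γ ξ κ j → WellFounded fun s t : Tm γ ξ κ => ME j s t

/-- SL. The elements of a term form a set. -/
def T_SL : Prop := ∀ (γ ξ κ : Ordinal.{u}) (j : ZFSet.{u} → ZFSet.{u}), Bas γ ξ κ j →
  ∀ t : Tm γ ξ κ, ∃ (ι : Type u) (g : ι → Tm γ ξ κ), ∀ s, ME j s t →
    ∃ i, ME j (g i) t ∧ MQ j s (g i)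

/-- SD. The terms for the elements of `V_ κ`. -/
def T_SD : Prop := ∀ (γ ξ κ : Ordinal.{u}) (j : ZFSet.{u} → ZFSet.{u}) (h : Bas γ ξ κ j),
  (∀ (c d : ZFSet.{u}) (hc : c ∈ HW γ κ) (hd : d ∈ HW γ κ),
    ME j (idt h.gξ c hc) (idt h.gξ d hd) ↔ c ∈ d) ∧
  (∀ (s : Tm γ ξ κ) (d : ZFSet.{u}) (hd : d ∈ HW γ κ), ME j s (idt h.gξ d hd) →
    ∃ (c : ZFSet.{u}) (hc : c ∈ HW γ κ), MQ j s (idt h.gξ c hc)) ∧
  (∀ (x : ZFSet.{u}) (hx : WV γ ξ x) (c : ZFSet.{u}) (hc : c ∈ HW γ κ),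
    ME j (idt h.gξ c hc) (ct h.gξ h.gκ h.lκ x hx.1) ↔ c ∈ j x) ∧
  ∀ (x : ZFSet.{u}) (hx : WV γ ξ x) (s : Tm γ ξ κ), ME j s (ct h.gξ h.gκ h.lκ x hx.1) →
    ∃ (c : ZFSet.{u}) (hc : c ∈ HW γ κ), MQ j s (idt h.gξ c hc)

/-- `π` is a collapse of the structure of the terms. -/
structure IsPi (γ ξ κ : Ordinal.{u}) (j : ZFSet.{u} → ZFSet.{u}) (π : Tm γ ξ κ → ZFSet.{u}) :
    Prop where
  mem : ∀ s t, ME j s t ↔ π s ∈ π t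
  eq : ∀ s t, MQ j s t ↔ π s = π t
  tra : ∀ t, ∀ x ∈ π t, ∃ s, π s = x

/-- PI. The collapse of the structure of the terms. -/
def T_PI : Prop := ∀ (γ ξ κ : Ordinal.{u}) (j : ZFSet.{u} → ZFSet.{u}), Bas γ ξ κ j →
  CC γ ξ κ j → ∃ π : Tm γ ξ κ → ZFSet.{u}, IsPi γ ξ κ j π

/-- IDC. The elements of `V_ κ` and the images of subsets of `V_ ξ`. -/
def T_IDC : Prop := ∀ (γ ξ κ : Ordinal.{u}) (j : ZFSet.{u} → ZFSet.{u}) (h : Bas γ ξ κ j)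
  (π : Tm γ ξ κ → ZFSet.{u}), IsPi γ ξ κ j π →
    (∀ (c : ZFSet.{u}) (hc : c ∈ HW γ κ), π (idt h.gξ c hc) = c) ∧
    ∀ (x : ZFSet.{u}) (hx : WV γ ξ x), π (ct h.gξ h.gκ h.lκ x hx.1) = j x

/-- ST. Satisfaction in the collapse. -/
def T_ST : Prop := ∀ (γ ξ κ : Ordinal.{u}) (j : ZFSet.{u} → ZFSet.{u})
  (π : Tm γ ξ κ → ZFSet.{u}), IsPi γ ξ κ j π → ∀ (φ : Fml) (t : ℕ → Tm γ ξ κ),
    (SatT (ME j) (MQ j) φ t ↔ Sat (fun x => ∃ s, π s = x) φ (π ∘ t))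

/-- ELE. The embedding is elementary. -/
def T_ELE : Prop := ∀ (γ ξ κ : Ordinal.{u}) (j : ZFSet.{u} → ZFSet.{u}) (h : Bas γ ξ κ j)
  (π : Tm γ ξ κ → ZFSet.{u}), IsPi γ ξ κ j π → ∀ (φ : Fml) (v : ℕ → ZFSet.{u})
    (hv : ∀ n, NV (min γ ξ) (v n)), (Sat (NV (min γ ξ)) φ v ↔
      Sat (fun x => ∃ s, π s = x) φ fun n => π (ct h.gξ h.gκ h.lκ (v n) (hv n)))

/-- POW. The subsets of `V_ κ` in the class `M` are in HOD(V_ (min γ κ)). -/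
def T_POW : Prop := ∀ (γ ξ κ : Ordinal.{u}) (j : ZFSet.{u} → ZFSet.{u}), Bas γ ξ κ j →
  ∀ π : Tm γ ξ κ → ZFSet.{u}, IsPi γ ξ κ j π → ∀ t, π t ⊆ V_ κ → NV (min γ κ) (π t)

/-- MAI. The extension of the embedding. -/
def T_MAI : Prop := ∀ (γ ξ κ : Ordinal.{u}) (j : ZFSet.{u} → ZFSet.{u}), Bas γ ξ κ j →
  CC γ ξ κ j → ∃ M jj, WEmb γ ξ κ j M jj

/-- YP. The embeddings between rank initial segments, with their values. -/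
def T_YP : Prop := ∀ K : Cardinal.{u}, K.IsRegular → ℵ₀ < K → ∀ γ, IsSuccLimit γ →
  ∀ (e : Ordinal.{u} → ZFSet.{u}) (C0 : Set Ordinal.{u}), (∀ ζ, WV γ K.ord (e ζ)) →
    (∀ x, WV γ K.ord x → ∃ ζ < K.ord, x = e ζ) → Clb K.ord C0 →
    (∀ ξ ∈ C0, ξ < K.ord → IsSuccLimit ξ ∧ ∀ x, WV γ ξ x ↔ ∃ ζ < ξ, x = e ζ ∩ V_ ξ) →
    ∃ C, Clb K.ord C ∧ ∀ ξ ∈ C, ξ < K.ord → IsSuccLimit ξ ∧
      (∀ x, WV γ ξ x → ∃ ζ < ξ, x = e ζ ∩ V_ ξ) ∧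
      ∃ j, PEmb γ ξ K.ord j ∧ ∀ ζ < ξ, j (e ζ ∩ V_ ξ) = e ζ

/-- CLB. Countable completeness. -/
def T_CLB : Prop := ∀ K : Cardinal.{u}, K.IsRegular → ℵ₀ < K → (∀ τ < K, τ ^ ℵ₀ < K) →
  ∀ γ, IsSuccLimit γ → VEN γ K →
  ∃ C, Clb K.ord C ∧ ∀ ξ ∈ C, ξ < K.ord → ℵ₀ < ξ.cof →
    ∃ j, Bas γ ξ K.ord j ∧ CC γ ξ K.ord j

/-- NEC. Embeddings at club many points. -/
def T_NEC : Prop := ∀ δ : Ordinal.{u}, Extendible δ → ¬ CaseA δ → ∀ K : Cardinal.{u},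
  K.IsRegular → δ < K.ord → (∀ μ : Cardinal.{u}, K = succ μ → μ.ord.cof ≠ ℵ₀) →
    ∀ γ, Fit γ K → VEN γ K → NEC γ K.ord

/-- NAE. No embedding in the first case. -/
def T_NAE : Prop := ∀ δ : Ordinal.{u}, Extendible δ → CaseA δ → ∀ κ γ : Ordinal.{u},
  IsSuccLimit γ → ¬ NES δ γ κ

/-- NSE. From club many points to one point. -/
def T_NSE : Prop := ∀ δ : Ordinal.{u}, Extendible δ → ∀ K : Cardinal.{u}, K.IsRegular →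
  δ < K.ord → ∀ γ : Ordinal.{u}, IsSuccLimit γ → NEC γ K.ord → NES δ γ K.ord

end HD.HW
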