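import Pool.Agent.H97.HV.All2
import Pool.Agent.H97.HV.FitI
import Pool.Agent.H97.HV.Targets4
import Pool.Agent.H38.HV.ATM

/-!
# MP_e37c09_lc: the model HOD(V_ γ). The theorem from the last modules
-/

open Ordinal Cardinal Order Set
open scoped ZFSet

universe u

namespace Pool.Agent.H97.HV

open _root_.HD HD.PRK HD.HV

theorem CLR : ∀ δ : Ordinal.{u}, Extendible δ → ∀ K : Cardinal.{u},
    K.IsRegular → δ < K.ord → ∀ γ, Fit γ K →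
      (¬ CaseA δ ↔ CLSN δ γ K.ord) ∧ (¬ CaseA δ ↔ RBMN δ γ K.ord) :=
  CLR' (Pool.Agent.H38.HV.pf_ATM PVA MEA)

/-- an extendible cardinal is inaccessible -/
theorem ext_ina {δ : Ordinal.{u}} (hδ : Extendible δ) : ∃ D : Cardinal.{u}, δ = D.ord ∧
    D.IsInaccessible := by
  obtain ⟨D, hD, hDr, hDs, hD0⟩ := base hδ
  exact ⟨D, hD, hD0, hDr.2, hDs.two_power_lt⟩

/-- the criteria for one pair `(γ, κ)` -/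
theorem crit' (hTRA : T_TRA.{u}) {δ : Ordinal.{u}} (hδ : Extendible δ) {K : Cardinal.{u}}
    (hK : K.IsRegular) (hδK : δ < K.ord) {γ : Ordinal.{u}} (hγ : Fit γ K) :
    (¬ CaseA δ ↔ MCof δ γ K.ord) ∧ (¬ CaseA δ ↔ HD.HV.FIL δ γ K) ∧
    (¬ CaseA δ ↔ RegS δ γ K.ord) ∧ (¬ CaseA δ ↔ RegC γ K.ord) ∧
    (¬ CaseA δ ↔ EmbS δ γ K.ord) ∧ (¬ CaseA δ ↔ VEN γ K) ∧
    (¬ CaseA δ ↔ INDN δ γ K.ord) ∧ (¬ CaseA δ ↔ CLSN δ γ K.ord) ∧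
    (¬ CaseA δ ↔ RBMN δ γ K.ord) := by
  obtain ⟨h1, h2, h3, h4, h5⟩ := MAIN' hTRA δ hδ K hK hδK γ hγ
  obtain ⟨h6, h7⟩ := REG' hTRA δ hδ K hK hδK γ hγ
  obtain ⟨h8, h9⟩ := CLR δ hδ K hK hδK γ hγ
  exact ⟨h1, h2, h6, h7, h3, h4, h5, h8, h9⟩

/-- The pairs `(γ, κ)`. -/
theorem fits {δ : Ordinal.{u}} (hδ : Extendible δ) :
    (∀ K : Cardinal.{u}, K.IsInaccessible → ∀ γ : Ordinal.{u}, IsSuccLimit γ → γ ≤ K.ord →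
      Fit γ K) ∧
    (∀ K : Cardinal.{u}, δ ≤ K.ord → ∀ γ : Ordinal.{u}, IsSuccLimit γ → γ ≤ δ → Fit γ K) ∧
    (∀ (K : Cardinal.{u}) (γ : Ordinal.{u}), IsSuccLimit γ → ZFSet.card (V_ γ) ≤ K → Fit γ K) ∧
    ∀ γ : Ordinal.{u}, IsSuccLimit γ → ∀ x ∈ V_ γ, NV γ x := by
  refine ⟨fun K hK γ h1 h2 => fit_all hK h1 h2, fun K hK γ h1 h2 => ?_,
    fun K γ h1 h2 => fit_card h1 h2, PVA.2.1⟩
  obtain ⟨D, rfl, hD⟩ := ext_ina hδ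
  exact fit_le hD (Cardinal.ord_le_ord.1 hK) h1 h2

/-- embeddings of the whole model -/
theorem whole' (hTRA : T_TRA.{u}) (hNEC : HD.HW.T_NEC.{u}) (hNAE : HD.HW.T_NAE.{u})
    (hNSE : HD.HW.T_NSE.{u}) {δ : Ordinal.{u}} (hδ : Extendible δ) {K : Cardinal.{u}}
    (hK : K.IsRegular) (hδK : δ < K.ord) (hμ : ∀ μ : Cardinal.{u}, K = succ μ → μ.ord.cof ≠ ℵ₀)
    {γ : Ordinal.{u}} (hγ : Fit γ K) :
    (¬ CaseA δ ↔ NES δ γ K.ord) ∧ (¬ CaseA δ ↔ NEC γ K.ord) := by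
  have a1 : ¬ CaseA δ → NEC γ K.ord := fun hA =>
    hNEC δ hδ hA K hK hδK hμ γ hγ (VEN' hTRA δ hδ hA K hK hδK γ hγ)
  have a2 : NEC γ K.ord → NES δ γ K.ord := hNSE δ hδ K hK hδK γ hγ.lim
  have a3 : NES δ γ K.ord → ¬ CaseA δ := fun h hA => hNAE δ hδ hA K.ord γ hγ.lim h
  exact ⟨⟨fun h => a2 (a1 h), a3⟩, ⟨a1, fun h => a3 (a2 h)⟩⟩

end Pool.Agent.H97.HV
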