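import Pool.Agent.H97.PRK.Targets

/-!
# MP_e37c09_lc: the second case and HOD(V_ γ). Definitions and targets
-/

open Ordinal Cardinal Order Set
open scoped ZFSet

universe u

namespace HD.HV

open HD.PRK

/-! ## Statement-level definitions -/

/-- `x` is definable from ordinals and an element of `V_ γ`. -/
def PV (γ : Ordinal.{u}) (x : ZFSet.{u}) : Prop := ∃ a ∈ V_ γ, NF.ODp a x

/-- `x` is an element of HOD(V_ γ): it is hereditarily definable from ordinals and elements of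
`V_ γ`. -/
def NV (γ : Ordinal.{u}) (x : ZFSet.{u}) : Prop := x.Hereditarily (PV γ)

/-- `γ ≤ κ` is a limit ordinal such that `V_ l` has fewer than `κ` elements for all `l < γ`. -/
structure Fit (γ : Ordinal.{u}) (K : Cardinal.{u}) : Prop where
  lim : IsSuccLimit γ
  le : γ ≤ K.ord
  few : ∀ l < γ, ∃ ν < K, NF.Sz ν (V_ l)

/-- `U` is in the class `N`, and in `N` it is a normal measure on `κ`. -/
structure NMeas (N : ZFSet.{u} → Prop) (κ : Ordinal.{u}) (U : ZFSet.{u}) : Prop where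
  inN : N U
  sub : ∀ x ∈ U, x ⊆ κ.toZFSet
  ultra : ∀ x, N x → x ⊆ κ.toZFSet → (x ∈ U ↔ κ.toZFSet \ x ∉ U)
  up : ∀ x ∈ U, ∀ y, N y → x ⊆ y → y ⊆ κ.toZFSet → y ∈ U
  nonpr : ∀ a < κ, {a.toZFSet} ∉ U
  compl : ∀ τ < κ, ∀ f, N f → ZFSet.IsFunc τ.toZFSet U f →
    (κ.toZFSet).sep (fun b => ∀ a x, ZFSet.pair a x ∈ f → b ∈ x) ∈ U
  normal : ∀ f, N f → ZFSet.IsFunc κ.toZFSet U f →
    (κ.toZFSet).sep (fun b => ∀ a x, a ∈ b → ZFSet.pair a x ∈ f → b ∈ x) ∈ U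

/-- HOD(V_ γ) has a normal measure on `κ` which contains the set of the limit ordinals of
cofinality less than `δ`. -/
def MCof (δ γ κ : Ordinal.{u}) : Prop := ∃ U, NMeas (NV γ) κ U ∧
  os κ {a | IsSuccLimit a ∧ a.cof.ord < δ} ∈ U

/-- the set of all subsets of `κ` in HOD(V_ γ) which contain almost all points of cofinality `μ` of
`S` -/
noncomputable def US (γ μ κ : Ordinal.{u}) (S : ZFSet.{u}) : ZFSet.{u} :=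
  ZFSet.sep (fun x => NV γ x ∧ ¬ Pos μ κ {a | a.toZFSet ∈ S ∧ a.toZFSet ∉ x})
    (ZFSet.powerset κ.toZFSet)

/-- For each regular `μ < δ` there are fewer than `δ` ordinal definable sets `S i` which are
stationary in the points of cofinality `μ` and contain almost all points of cofinality `μ`, such
that the sets in HOD(V_ γ) which contain almost all points of cofinality `μ` of `S i` form a normal
measure of HOD(V_ γ). -/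
def FIL (δ γ : Ordinal.{u}) (K : Cardinal.{u}) : Prop := ∀ M : Cardinal.{u}, M.IsRegular →
  M.ord < δ → ∃ τ < δ, ∃ S : Ordinal.{u} → ZFSet.{u},
    (∀ i < τ, OD (S i) ∧ Pos M.ord K.ord {a | a.toZFSet ∈ S i} ∧
      NMeas (NV γ) K.ord (US γ M.ord K.ord (S i))) ∧
    ¬ Pos M.ord K.ord {a | ∀ i < τ, a.toZFSet ∉ S i}

/-- `x` is in `(V_ (ξ + 1))` of the model HOD(V_ (min γ ξ)). -/
def WV (γ ξ : Ordinal.{u}) (x : ZFSet.{u}) : Prop := NV (min γ ξ) x ∧ x ⊆ V_ ξ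

/-- `j` is an elementary embedding of `V_ (ξ + 1)` of the model HOD(V_ (min γ ξ)) into `V_ (κ + 1)`
of the model HOD(V_ (min γ κ)) which is the identity on `V_ ξ` of this model and maps `ξ` to `κ`. -/
structure PEmb (γ ξ κ : Ordinal.{u}) (j : ZFSet.{u} → ZFSet.{u}) : Prop where
  map : ∀ x, WV γ ξ x → WV γ κ (j x)
  elem : ∀ (φ : Fml) (v : ℕ → ZFSet.{u}), (∀ n, WV γ ξ (v n)) →
    (Sat (WV γ ξ) φ v ↔ Sat (WV γ κ) φ (j ∘ v))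
  fix : ∀ x, NV (min γ ξ) x → x ∈ V_ ξ → j x = x
  crit : j ξ.toZFSet = κ.toZFSet

/-- Some `ξ` in `(δ, κ)` of cofinality less than `δ` is the critical point of such an embedding. -/
def EmbS (δ γ κ : Ordinal.{u}) : Prop := ∃ ξ, δ < ξ ∧ ξ < κ ∧ IsSuccLimit ξ ∧ ξ.cof.ord < δ ∧
  ∃ j, PEmb γ ξ κ j

/-- the conditions on the enumeration `e` and the club set `C` -/
structure VEd (γ : Ordinal.{u}) (K : Cardinal.{u}) (C : Set Ordinal.{u})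
    (e : Ordinal.{u} → ZFSet.{u}) : Prop where
  clb : Clb K.ord C
  lim : ∀ ξ ∈ C, ξ < K.ord → IsSuccLimit ξ
  he : ∀ ζ, WV γ K.ord (e ζ)
  onto : ∀ x, WV γ K.ord x → ∃ ζ < K.ord, x = e ζ
  tr : ∀ ξ ∈ C, ξ < K.ord → ∀ x, WV γ ξ x ↔ ∃ ζ < ξ, x = e ζ ∩ V_ ξ
  par : ∀ ξ ∈ C, ξ < K.ord → ∀ ζ < ξ, PV (min γ ξ) (e ζ)
  emb : ∀ ξ ∈ C, ξ < K.ord → ∃ j, PEmb γ ξ K.ord j

/-- There are an enumeration `e` of `V_ (κ + 1)` of HOD(V_ γ) and a club set of ordinals `ξ` such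
that `V_ (ξ + 1)` of HOD(V_ (min γ ξ)) consists of the sets `e ζ ∩ V_ ξ`, `ζ < ξ`, and `ξ` is the
critical point of an embedding as above. -/
def VEN (γ : Ordinal.{u}) (K : Cardinal.{u}) : Prop := ∃ C e, VEd γ K C e

/-- Each regressive function on `β` in HOD(V_ (min γ β)) is constant on a final segment of
`A ∩ β`. -/
def HomN (γ β : Ordinal.{u}) (A : Set Ordinal.{u}) : Prop :=
  ∀ f, NV (min γ β) f → ZFSet.IsFunc β.toZFSet β.toZFSet f →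
    (∀ a b : Ordinal.{u}, ZFSet.pair a.toZFSet b.toZFSet ∈ f → 0 < a → b < a) →
    ∃ η < β, ∃ c : Ordinal.{u}, ∀ a ∈ A, η ≤ a → a < β → ZFSet.pair a.toZFSet c.toZFSet ∈ f

/-- For each sequence `Y n`, `n < β`, in HOD(V_ (min γ β)) the set of all `n` such that `Y n`
contains a final segment of `A ∩ β` is in HOD(V_ (min γ β)). -/
def AmeN (γ β : Ordinal.{u}) (A : Set Ordinal.{u}) : Prop :=
  ∀ f y, NV (min γ β) f → ZFSet.IsFunc β.toZFSet y f → ∃ s, NV (min γ β) s ∧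
    ∀ n : Ordinal.{u}, n.toZFSet ∈ s ↔ n < β ∧ ∃ Y, ZFSet.pair n.toZFSet Y ∈ f ∧
      ∃ η < β, ∀ a ∈ A, η ≤ a → a < β → a.toZFSet ∈ Y

/-- Each set which is stationary in the points of cofinality less than `δ` has such a subset `A`
which is homogeneous for HOD(V_ (min γ β)) at all its limit points `β ≤ κ`. -/
def INDN (δ γ κ : Ordinal.{u}) : Prop := ∀ T, St δ κ T → ∃ A : Set Ordinal.{u},
  (∀ a ∈ A, a ∈ T ∧ a.cof.ord < δ) ∧ St δ κ A ∧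
    ∀ β ≤ κ, 0 < β → Unb β A → HomN γ β A ∧ AmeN γ β A

/-! ## Parameters -/

/-- PVA. -/
def T_PVA : Prop :=
  (∀ (γ : Ordinal.{u}) (x : ZFSet.{u}), 0 < γ → OD x → PV γ x) ∧
  (∀ γ : Ordinal.{u}, IsSuccLimit γ → ∀ x ∈ V_ γ, NV γ x) ∧
  (∀ γ : Ordinal.{u}, IsSuccLimit γ → ∀ x y z : ZFSet.{u}, PV γ x → PV γ y →
    NF.ODp (ZFSet.pair x y) z → PV γ z) ∧
  (∀ (γ γ' : Ordinal.{u}) (x : ZFSet.{u}), γ ≤ γ' → (PV γ x → PV γ' x) ∧ (NV γ x → NV γ' x)) ∧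
  (∀ (γ κ : Ordinal.{u}) (x : ZFSet.{u}), 0 < γ → x ⊆ κ.toZFSet → PV γ x → NV γ x)

/-- PVD. Definability. -/
def T_PVD : Prop := ∀ γ : Ordinal.{u}, (DZ fun v => PV γ (v 0)) ∧ DZ fun v => NV γ (v 0)

/-- UNI. Uniformization. -/
def T_UNI : Prop :=
  (∀ (l : Ordinal.{u}) (Q a x : ZFSet.{u}), OD Q → a ∈ V_ l → NF.ODp a x → x ⊆ Q →
    ∃ R, OD R ∧ R ⊆ ZFSet.prod (V_ l) Q ∧ ∀ z, ZFSet.pair a z ∈ R ↔ z ∈ x) ∧
  ∀ R a x : ZFSet.{u}, OD R → (∀ z, ZFSet.pair a z ∈ R ↔ z ∈ x) → NF.ODp a x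

/-! ## Atoms -/

/-- ETR. One club set for all parameters in `V_ l`. -/
def T_ETR : Prop := ∀ en : Ordinal.{u} → ZFSet.{u}, EN en → ∀ M K : Cardinal.{u}, K.IsRegular →
  ℵ₀ < K → ∀ c, Atom en M.ord K.ord c → ∀ l : Ordinal.{u},
    (∃ ν < K, NF.Sz ν (V_ (succ l))) → ∀ R, OD R → ∃ C, Clb K.ord C ∧ ∀ a ∈ V_ l,
      (∀ b ∈ C, b < K.ord → b ∈ E en c → Cf M.ord b → ZFSet.pair a b.toZFSet ∈ R) ∨
      (∀ b ∈ C, b < K.ord → b ∈ E en c → Cf M.ord b → ZFSet.pair a b.toZFSet ∉ R)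

/-- DEC. An atom is not split by a set in HOD(V_ γ). -/
def T_DEC : Prop := ∀ en : Ordinal.{u} → ZFSet.{u}, EN en → ∀ M K : Cardinal.{u}, K.IsRegular →
  ℵ₀ < K → ∀ c, Atom en M.ord K.ord c → ∀ γ, Fit γ K → ∀ x, PV γ x →
    ¬ (Pos M.ord K.ord (E en c ∩ {a | a.toZFSet ∈ x}) ∧
      Pos M.ord K.ord (E en c \ {a | a.toZFSet ∈ x}))

/-- MIN. -/
def T_MIN : Prop := ∀ (γ μ κ : Ordinal.{u}) (S : ZFSet.{u}), 0 < γ → OD S → NV γ (US γ μ κ S)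

/-- MEA. The measure. -/
def T_MEA : Prop := ∀ en : Ordinal.{u} → ZFSet.{u}, EN en → ∀ M K : Cardinal.{u}, K.IsRegular →
  ℵ₀ < K → ∀ c, Atom en M.ord K.ord c → ∀ γ, Fit γ K →
    NMeas (NV γ) K.ord (US γ M.ord K.ord (en c))

/-- FIL. -/
def T_FIL : Prop := ∀ δ : Ordinal.{u}, Extendible δ → ¬ CaseA δ → ∀ K : Cardinal.{u},
  K.IsRegular → δ < K.ord → ∀ γ, Fit γ K → FIL δ γ K

/-- FI1. -/
def T_FI1 : Prop := ∀ δ : Ordinal.{u}, ω < δ → ∀ K : Cardinal.{u}, K.IsRegular → ℵ₀ < K →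
  ∀ γ, Fit γ K → FIL δ γ K → MCof δ γ K.ord

/-! ## The first case -/

/-- YA. Small cofinal subsets. -/
def T_YA : Prop := ∀ δ : Ordinal.{u}, Extendible δ → CaseA δ → ∀ α : Ordinal.{u},
  IsSuccLimit α → α.cof.ord < δ → ∃ y, OD y ∧ y ⊆ α.toZFSet ∧ Few δ {a | a.toZFSet ∈ y} ∧
    ∀ b < α, ∃ c < α, b ≤ c ∧ c.toZFSet ∈ y

/-- YR. Small cofinal subsets, uniformly. -/
def T_YR : Prop := ∀ δ : Ordinal.{u}, Extendible δ → CaseA δ →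
  ∃ R : Ordinal.{u} → Ordinal.{u} → Prop, DR R ∧ ∀ α : Ordinal.{u}, IsSuccLimit α →
    α.cof.ord < δ → (∀ η, R α η → η < α) ∧ Few δ {η | R α η} ∧ ∀ b < α, ∃ η, b ≤ η ∧ R α η

/-- NMF. Facts on measures. -/
def T_NMF : Prop := ∀ γ : Ordinal.{u}, IsSuccLimit γ → ∀ K : Cardinal.{u}, ℵ₀ < K → ∀ U,
  NMeas (NV γ) K.ord U → (∀ x ∈ U, ∀ y ∈ U, x ∩ y ∈ U) ∧
    ∀ x ∈ U, ∀ b < K.ord, ∃ a : Ordinal.{u}, b ≤ a ∧ a < K.ord ∧ a.toZFSet ∈ x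

/-- DGN. Diagonal intersections. -/
def T_DGN : Prop := ∀ γ : Ordinal.{u}, IsSuccLimit γ → ∀ (K : Cardinal.{u}) (U),
  NMeas (NV γ) K.ord U → ∀ R : Ordinal.{u} → Ordinal.{u} → Prop, DR R →
    ∃ (A : Set Ordinal.{u}) (D : ZFSet.{u}), D ∈ U ∧
      ∀ b : Ordinal.{u}, b.toZFSet ∈ D → ∀ η < b, (R b η ↔ η ∈ A)

/-- NOM. -/
def T_NOM : Prop := ∀ δ : Ordinal.{u}, Extendible δ → CaseA δ → ∀ K : Cardinal.{u},
  K.IsRegular → δ < K.ord → ∀ γ : Ordinal.{u}, IsSuccLimit γ → ¬ MCof δ γ K.ord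

/-- HNA. -/
def T_HNA : Prop := ∀ δ : Ordinal.{u}, Extendible δ → CaseA δ → ∀ K : Cardinal.{u},
  K.IsRegular → δ < K.ord → ∀ γ : Ordinal.{u}, 0 < γ → ¬ INDN δ γ K.ord

/-! ## Enumeration and embeddings -/

/-- the elements of `V_ l` which are in HOD(V_ γ) -/
noncomputable def Wz (γ l : Ordinal.{u}) : ZFSet.{u} := ZFSet.sep (NV γ) (V_ l)

/-- WZF. -/
def T_WZF : Prop :=
  (∀ γ : Ordinal.{u}, DZ fun v => (v 0).IsOrdinal ∧ v 1 = Wz γ (v 0).rank) ∧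
  (∀ γ l : Ordinal.{u}, OD (Wz γ l)) ∧
  ∀ (γ ξ : Ordinal.{u}) (x : ZFSet.{u}), WV γ ξ x → x ⊆ Wz γ ξ

/-- the least codes of the ordinal definable subsets of `Q` -/
def Lst (en : Ordinal.{u} → ZFSet.{u}) (Q : ZFSet.{u}) : Set Ordinal.{u} :=
  {c | en c ⊆ Q ∧ ∀ c' < c, en c' ≠ en c}

/-- FOD. The number of the ordinal definable subsets. -/
def T_FOD : Prop := ∀ en : Ordinal.{u} → ZFSet.{u}, EN en → ∀ M K : Cardinal.{u}, K.IsRegular →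
  ℵ₀ < K → (∃ c, Atom en M.ord K.ord c) → ∀ γ, Fit γ K → ∀ Q, OD Q → (∀ s ∈ Q, PV γ s) →
    (∃ ν < K, NF.Sz ν Q) → Few K.ord (Lst en Q)

/-- the conclusion of FOD for `γ` and `K` -/
def Fod (en : Ordinal.{u} → ZFSet.{u}) (γ : Ordinal.{u}) (K : Cardinal.{u}) : Prop :=
  ∀ Q, OD Q → (∀ s ∈ Q, PV γ s) → (∃ ν < K, NF.Sz ν Q) → Few K.ord (Lst en Q)

/-- SUB. The number of the subsets in HOD(V_ γ) if `γ < κ`. -/
def T_SUB : Prop := ∀ en : Ordinal.{u} → ZFSet.{u}, EN en → ∀ K : Cardinal.{u}, K.IsRegular →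
  ℵ₀ < K → ∀ γ, Fit γ K → γ < K.ord → Fod en γ K → ∀ Q, OD Q → (∀ s ∈ Q, PV γ s) →
    (∃ ν < K, NF.Sz ν Q) → ∃ ν < K, ∃ e : Ordinal.{u} → ZFSet.{u}, ∀ x, x ⊆ Q → PV γ x →
      ∃ i < ν.ord, x = e i

/-- WSZ. -/
def T_WSZ : Prop := ∀ en : Ordinal.{u} → ZFSet.{u}, EN en → ∀ K : Cardinal.{u}, K.IsRegular →
  ℵ₀ < K → ∀ γ, Fit γ K → Fod en γ K → ∀ l < K.ord, ∃ ν < K, NF.Sz ν (Wz γ l)

/-- Codes of the ordinal definable subsets of the sets `V_ l × Wz γ m`. -/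
structure Cdg (γ l : Ordinal.{u}) (K : Cardinal.{u})
    (J : Ordinal.{u} → Ordinal.{u} → ZFSet.{u} → Prop) : Prop where
  dz : DZ fun v => (v 0).IsOrdinal ∧ (v 1).IsOrdinal ∧ J (v 0).rank (v 1).rank (v 2)
  ex : ∀ m < K.ord, ∀ Y, OD Y → Y ⊆ ZFSet.prod (V_ l) (Wz γ m) → ∃ i, J m i Y
  un : ∀ m i Y Y', J m i Y → J m i Y' → Y = Y'
  inj : ∀ m i i' Y, J m i Y → J m i' Y → i = i'
  sub : ∀ m i Y, J m i Y → OD Y ∧ Y ⊆ ZFSet.prod (V_ l) (Wz γ m)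
  bd : ∀ m < K.ord, ∃ b < K.ord, ∀ i Y, J m i Y → i < b

/-- COD. -/
def T_COD : Prop := ∀ en : Ordinal.{u} → ZFSet.{u}, EN en → ∀ K : Cardinal.{u}, K.IsRegular →
  ℵ₀ < K → ∀ γ, Fit γ K → Fod en γ K → ∀ l < γ, ∃ J, Cdg γ l K J

/-- COH. Sequences of ordinal definable subsets of `V_ l × Wz γ ξ` cohere on a stationary set. -/
def T_COH : Prop := ∀ K : Cardinal.{u}, K.IsRegular → ℵ₀ < K → VI K → ∀ (γ l : Ordinal.{u}) J,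
  Cdg γ l K J → ∀ (S : Set Ordinal.{u}) (R : Ordinal.{u} → ZFSet.{u}),
    (∀ C, Clb K.ord C → ∃ a < K.ord, a ∈ C ∧ a ∈ S) →
    (∀ a ∈ S, a < K.ord → OD (R a) ∧ R a ⊆ ZFSet.prod (V_ l) (Wz γ a)) →
    ∃ T, OD T ∧ T ⊆ ZFSet.prod (V_ l) (Wz γ K.ord) ∧ ∀ C, Clb K.ord C →
      ∃ a < K.ord, a ∈ C ∧ a ∈ S ∧ ∀ z, z ∈ R a ↔ z ∈ T ∧ z ∈ ZFSet.prod (V_ l) (Wz γ a)

/-- CNT. The number of the ordinal definable subsets of `V_ l × Wz γ κ`. -/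
def T_CNT : Prop := ∀ K : Cardinal.{u}, K.IsRegular → ℵ₀ < K → VE K → ∀ (γ l : Ordinal.{u}) J,
  Cdg γ l K J → ∃ f : Ordinal.{u} → ZFSet.{u}, ∀ T, OD T →
    T ⊆ ZFSet.prod (V_ l) (Wz γ K.ord) → ∃ ζ < K.ord, T = f ζ

/-- ENM. The enumeration. -/
def T_ENM : Prop := ∀ K : Cardinal.{u}, K.IsRegular → ℵ₀ < K → ∀ γ, Fit γ K →
  (∀ l < γ, ∃ f : Ordinal.{u} → ZFSet.{u}, ∀ T, OD T → T ⊆ ZFSet.prod (V_ l) (Wz γ K.ord) →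
    ∃ ζ < K.ord, T = f ζ) →
  ∃ e : Ordinal.{u} → ZFSet.{u}, (∀ ζ, WV γ K.ord (e ζ)) ∧
    ∀ x, WV γ K.ord x → ∃ ζ < K.ord, x = e ζ

/-- stationary -/
def Sta (κ : Ordinal.{u}) (S : Set Ordinal.{u}) : Prop :=
  ∀ C, Clb κ C → ∃ a < κ, a ∈ C ∧ a ∈ S

/-- FDS. Fodor's theorem. -/
def T_FDS : Prop := ∀ K : Cardinal.{u}, K.IsRegular → ℵ₀ < K → ∀ (S : Set Ordinal.{u}), Sta K.ord S →
  (∀ h : Ordinal.{u} → Ordinal.{u}, (∀ b ∈ S, b < K.ord → 0 < b → h b < b) →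
    ∃ a < K.ord, Sta K.ord {b | b ∈ S ∧ h b = a}) ∧
  ∀ ν < K, ∀ (e g : Ordinal.{u} → ZFSet.{u}), (∀ b ∈ S, b < K.ord → ∃ i < ν.ord, g b = e i) →
    ∃ i < ν.ord, Sta K.ord {b | b ∈ S ∧ g b = e i}

/-- the conclusion of COH for `γ` and `K` -/
def Coh (γ : Ordinal.{u}) (K : Cardinal.{u}) : Prop := ∀ l < γ,
  ∀ (S : Set Ordinal.{u}) (R : Ordinal.{u} → ZFSet.{u}), Sta K.ord S →
    (∀ a ∈ S, a < K.ord → OD (R a) ∧ R a ⊆ ZFSet.prod (V_ l) (Wz γ a)) →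
    ∃ T, OD T ∧ T ⊆ ZFSet.prod (V_ l) (Wz γ K.ord) ∧ ∀ C, Clb K.ord C →
      ∃ a < K.ord, a ∈ C ∧ a ∈ S ∧ ∀ z, z ∈ R a ↔ z ∈ T ∧ z ∈ ZFSet.prod (V_ l) (Wz γ a)

/-- TRA. The traces of the sets of the enumeration. -/
def T_TRA : Prop := ∀ K : Cardinal.{u}, K.IsRegular → ℵ₀ < K → ∀ γ, Fit γ K → Coh γ K →
  ∀ e : Ordinal.{u} → ZFSet.{u}, (∀ x, WV γ K.ord x → ∃ ζ < K.ord, x = e ζ) →
    ∃ C, Clb K.ord C ∧ ∀ ξ ∈ C, ξ < K.ord → ∀ x, WV γ ξ x → ∃ ζ < ξ, x = e ζ ∩ V_ ξ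

/-- CLO. Closure. -/
def T_CLO : Prop := ∀ K : Cardinal.{u}, K.IsRegular → ℵ₀ < K → ∀ γ, Fit γ K →
  ∀ e : Ordinal.{u} → ZFSet.{u}, (∀ ζ, WV γ K.ord (e ζ)) →
    ∃ C, Clb K.ord C ∧ ∀ ξ ∈ C, ξ < K.ord → IsSuccLimit ξ ∧ ∀ ζ < ξ, PV (min γ ξ) (e ζ) ∧
      WV γ ξ (e ζ ∩ V_ ξ)

/-- EMB. The embeddings. -/
def T_EMB : Prop := ∀ K : Cardinal.{u}, K.IsRegular → ℵ₀ < K → ∀ γ, IsSuccLimit γ →
  ∀ (e : Ordinal.{u} → ZFSet.{u}) (C0 : Set Ordinal.{u}), (∀ ζ, WV γ K.ord (e ζ)) →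
    (∀ x, WV γ K.ord x → ∃ ζ < K.ord, x = e ζ) → Clb K.ord C0 →
    (∀ ξ ∈ C0, ξ < K.ord → IsSuccLimit ξ ∧ ∀ x, WV γ ξ x ↔ ∃ ζ < ξ, x = e ζ ∩ V_ ξ) →
    ∃ C, Clb K.ord C ∧ ∀ ξ ∈ C, ξ < K.ord → ∃ j, PEmb γ ξ K.ord j

/-- VEN. -/
def T_VEN : Prop := ∀ δ : Ordinal.{u}, Extendible δ → ¬ CaseA δ → ∀ K : Cardinal.{u},
  K.IsRegular → δ < K.ord → ∀ γ, Fit γ K → VEN γ K

/-- NEM. -/
def T_NEM : Prop := ∀ δ : Ordinal.{u}, Extendible δ → CaseA δ → ∀ K : Cardinal.{u},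
  K.IsRegular → δ < K.ord → ∀ γ : Ordinal.{u}, IsSuccLimit γ → ¬ EmbS δ γ K.ord

/-! ## Homogeneous sets -/

/-- The club set for an atom `c` and the enumeration `e`. -/
structure GN (en : Ordinal.{u} → ZFSet.{u}) (γ : Ordinal.{u}) (M K : Cardinal.{u})
    (c : Ordinal.{u}) (C : Set Ordinal.{u}) (e : Ordinal.{u} → ZFSet.{u}) : Prop where
  hen : EN en
  fit : Fit γ K
  kreg : K.IsRegular
  kunc : ℵ₀ < K
  atom : Atom en M.ord K.ord c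
  ve : VEd γ K C e
  nrm : ∀ z < K.ord,
    (∃ n0 : Ordinal.{u}, ∀ a ∈ C, a ∈ E en c → Cf M.ord a → z < a → a < K.ord →
      n0 < a ∧ ZFSet.pair a.toZFSet n0.toZFSet ∈ e z ∧
        ∀ n < n0, ZFSet.pair a.toZFSet n.toZFSet ∉ e z) ∨
    ∀ a ∈ C, a ∈ E en c → Cf M.ord a → z < a → a < K.ord →
      ∀ n < a, ZFSet.pair a.toZFSet n.toZFSet ∉ e z
  dec : ∀ z < K.ord, ∀ n < K.ord, ∀ a ∈ C, a ∈ E en c → Cf M.ord a → z < a → n < a →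
    a < K.ord → (ZFSet.pair n.toZFSet a.toZFSet ∈ e z ↔
      ¬ Pos M.ord K.ord {b | b ∈ E en c ∧ ZFSet.pair n.toZFSet b.toZFSet ∉ e z})

/-- GCN. Existence. -/
def T_GCN : Prop := ∀ en : Ordinal.{u} → ZFSet.{u}, EN en → ∀ (M K : Cardinal.{u}), K.IsRegular →
  ℵ₀ < K → ∀ γ, Fit γ K → VEN γ K → ∀ c, Atom en M.ord K.ord c → ∃ C e, GN en γ M K c C e

/-- HMN. -/
def T_HMN : Prop := ∀ en γ M K c C e, GN.{u} en γ M K c C e → ∀ A : Set Ordinal.{u},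
  (∀ a ∈ A, a ∈ C ∧ a ∈ E en c ∧ Cf M.ord a) → ∀ β ≤ K.ord, 0 < β → Unb β A → HomN γ β A

/-- AMN. -/
def T_AMN : Prop := ∀ en γ M K c C e, GN.{u} en γ M K c C e → ∀ A : Set Ordinal.{u},
  (∀ a ∈ A, a ∈ C ∧ a ∈ E en c ∧ Cf M.ord a) → ∀ β ≤ K.ord, 0 < β → Unb β A → AmeN γ β A

/-- INN. -/
def T_INN : Prop := ∀ δ : Ordinal.{u}, Extendible δ → ¬ CaseA δ → ∀ K : Cardinal.{u},
  K.IsRegular → δ < K.ord → ∀ γ, Fit γ K → VEN γ K → INDN δ γ K.ord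

/-- The theorem. -/
def T_MAIN : Prop := ∀ δ : Ordinal.{u}, Extendible δ → ∀ K : Cardinal.{u}, K.IsRegular →
  δ < K.ord → ∀ γ, Fit γ K →
    (¬ CaseA δ ↔ MCof δ γ K.ord) ∧ (¬ CaseA δ ↔ FIL δ γ K) ∧ (¬ CaseA δ ↔ EmbS δ γ K.ord) ∧
    (¬ CaseA δ ↔ VEN γ K) ∧ (¬ CaseA δ ↔ INDN δ γ K.ord)

end HD.HV
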