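import Pool.Agent.H97.HV.Targets
import Pool.Agent.H97.HV.Reg

/-!
# MP_e37c09_lc: small sets of points of a club over HOD(V_ γ). Definitions and targets
-/

open Ordinal Cardinal Order Set
open scoped ZFSet

universe u

namespace HD.HV

open HD.PRK

/-! ## Statement-level definition -/

/-- No new subsets of the minimum: for each small set `x` of points of `C` with minimum `m` each
subset of `m` which is definable from `x`, ordinals and an element of `V_ (min γ m)` is definable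
from ordinals and an element of `V_ (min γ m)`. -/
def NoSub (δ γ κ : Ordinal.{u}) : Prop := ∃ C, Clb κ C ∧ ∀ x, Sml δ κ C x →
  ∀ m : Ordinal.{u}, m.toZFSet ∈ x → (∀ b : Ordinal.{u}, b.toZFSet ∈ x → m ≤ b) →
    ∀ B ⊆ m.toZFSet, ∀ a ∈ V_ (min γ m), NF.ODp (ZFSet.pair x a) B → PV (min γ m) B

/-! ## Families of sequences -/

/-- the values of the family `F` at `x` and at `y` at the place `i` are equal -/
def Eqv (F x y : ZFSet.{u}) (i : Ordinal.{u}) : Prop :=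
  ∀ a, ZFSet.pair x (ZFSet.pair i.toZFSet a) ∈ F ↔ ZFSet.pair y (ZFSet.pair i.toZFSet a) ∈ F

/-- they are equal at all places less than `i` -/
def AgV (F x y : ZFSet.{u}) (i : Ordinal.{u}) : Prop := ∀ k < i, Eqv F x y k

/-- the class of `x` at the level `i` is positive -/
def PcV (μ ρ : Ordinal.{u}) (F x : ZFSet.{u}) (i : Ordinal.{u}) : Prop :=
  PosX μ ρ fun y => AgV F y x i

/-- `i` splits `F` at `ρ` -/
def SplV (μ ρ : Ordinal.{u}) (F : ZFSet.{u}) (i : Ordinal.{u}) : Prop :=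
  ∃ x ⊆ ρ.toZFSet, ∃ y ⊆ ρ.toZFSet, PcV μ ρ F x (succ i) ∧ PcV μ ρ F y (succ i) ∧
    AgV F x y i ∧ ¬ Eqv F x y i

/-- the splitting points below `ρ` -/
def SpV (μ ρ : Ordinal.{u}) (F : ZFSet.{u}) : Set Ordinal.{u} := {i | i < ρ ∧ SplV μ ρ F i}

/-- At the level `n` there are fewer than `δ` positive classes at `ρ`. -/
def CnV (δ μ ρ : Ordinal.{u}) (F : ZFSet.{u}) (n : Ordinal.{u}) : Prop :=
  ∃ τ < δ, ∃ g : Ordinal.{u} → ZFSet.{u}, ∀ x ⊆ ρ.toZFSet, PcV μ ρ F x n →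
    ∃ i < τ, AgV F x (g i) n

/-- At the level `n` almost all `x` are in one of fewer than `κ` classes. -/
def HnV (μ : Ordinal.{u}) (K : Cardinal.{u}) (F : ZFSet.{u}) (n : Ordinal.{u}) : Prop :=
  ∃ ν < K, ∃ g : Ordinal.{u} → ZFSet.{u}, ¬ PosX μ K.ord fun x => ∀ i < ν.ord, ¬ AgV F x (g i) n

/-- At the level `n` almost all `x` are in one of fewer than `δ` positive classes. -/
def GdV (δ μ κ : Ordinal.{u}) (F : ZFSet.{u}) (n : Ordinal.{u}) : Prop :=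
  ∃ τ < δ, ∃ g : Ordinal.{u} → ZFSet.{u}, (∀ i < τ, PcV μ κ F (g i) n) ∧
    ¬ PosX μ κ fun x => ∀ i < τ, ¬ AgV F x (g i) n

/-! ## Local definability -/

/-- LAV. -/
def T_LAV : Prop :=
  (Loc.{u} fun v => (v 3).IsOrdinal ∧ Eqv (v 0) (v 1) (v 2) (v 3).rank) ∧
  (Loc.{u} fun v => (v 3).IsOrdinal ∧ AgV (v 0) (v 1) (v 2) (v 3).rank) ∧
  Loc.{u} fun v => (v 0).IsOrdinal ∧ (v 1).IsOrdinal ∧ (v 4).IsOrdinal ∧
    PcV (v 0).rank (v 1).rank (v 2) (v 3) (v 4).rank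

/-- LOV. Splitting is locally definable. -/
def T_LOV : Prop := Loc.{u} fun v => (v 0).IsOrdinal ∧ (v 1).IsOrdinal ∧ (v 3).IsOrdinal ∧
  SplV (v 0).rank (v 1).rank (v 2) (v 3).rank

/-- LFV. To have few splitting points, and to have unboundedly many splitting points. -/
def T_LFV : Prop :=
  (Loc.{u} fun v => (v 0).IsOrdinal ∧ (v 1).IsOrdinal ∧ (v 3).IsOrdinal ∧
    (v 4).IsOrdinal ∧ Few (v 4).rank {i | i < (v 3).rank ∧ SplV (v 0).rank (v 1).rank (v 2) i}) ∧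
  Loc.{u} fun v => (v 0).IsOrdinal ∧ (v 1).IsOrdinal ∧ (v 3).IsOrdinal ∧
    ∀ z < (v 3).rank, ∃ i, z < i ∧ i < (v 3).rank ∧ SplV (v 0).rank (v 1).rank (v 2) i

/-- LCV. The number of the positive classes. -/
def T_LCV : Prop := Loc.{u} fun v => (v 0).IsOrdinal ∧ (v 1).IsOrdinal ∧ (v 3).IsOrdinal ∧
  (v 4).IsOrdinal ∧ CnV (v 4).rank (v 0).rank (v 1).rank (v 2) (v 3).rank

/-! ## Splitting points -/

/-- SV1. The argument of Solovay for the splitting points. -/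
def T_SV1 : Prop := ∀ δ η θ j K μ ρ F, SolX.{u} δ η θ j K μ ρ F → ∀ i,
  (SplV μ ρ (j F) i ↔ ∃ i0 < η, i = Jo j i0 ∧ SplV μ K.ord F i0)

/-- CNV. The second embedding. -/
def T_CNV : Prop := ∀ (δ η θ : Ordinal.{u}) j (K : Cardinal.{u}) (μ ρ : Ordinal.{u}) F,
  SolX.{u} δ η θ j K μ ρ F → δ.cof.ord = δ → ∀ lam ≤ K.ord, IsSuccLimit lam → lam.cof.ord < δ →
    (∀ z < lam, ∃ i, z < i ∧ i < lam ∧ SplV μ K.ord F i) →
      ∃ ρ0 : Ordinal.{u}, (∀ z < lam, ∃ i, z < i ∧ i < lam ∧ SplV μ ρ0 F i) ∧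
        Few δ {i | i < lam ∧ SplV μ ρ0 F i}

/-- CVN. The contradiction. -/
def T_CVN : Prop := ∀ (δ η θ : Ordinal.{u}) j (K : Cardinal.{u}) (μ ρ : Ordinal.{u}) F,
  SolX.{u} δ η θ j K μ ρ F → δ.cof.ord = δ → OD F → ∀ α, HReg α → IsSuccLimit α → δ < α →
    α.cof.ord < δ → (∀ a < α, ∃ z, nth (SpV μ K.ord F) a z) → False

/-- TWV. There are fewer than `δ` splitting points. -/
def T_TWV : Prop := ∀ δ : Ordinal.{u}, Extendible δ → ¬ CaseA δ → ∀ K : Cardinal.{u},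
  K.IsRegular → δ < K.ord → ∀ μ < δ, ω ≤ μ → ∀ F, OD F → Few δ (SpV μ K.ord F)

/-! ## The number of the classes -/

/-- LCR. Reflection of a positive class. -/
def T_LCR : Prop := ∀ δ η θ j K μ ρ F, SolX.{u} δ η θ j K μ ρ F → ∀ n < K.ord, HnV μ K F n →
  ∀ x ∈ V_ η, PcV μ K.ord F x n → ∃ ρ0 < K.ord, PcV μ ρ0 F x n ∧ CnV δ μ ρ0 F n

/-- LCB. Fewer than `δ` positive classes. -/
def T_LCB : Prop := ∀ δ : Ordinal.{u}, Extendible δ → ¬ CaseA δ → ∀ K : Cardinal.{u},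
  K.IsRegular → δ < K.ord → ∀ μ < δ, ω ≤ μ → ∀ F, OD F → ∀ n < K.ord, HnV μ K F n →
    GdV δ μ K.ord F n

/-- all values of `F` are subsets of `V_ l` -/
def ValV (l : Ordinal.{u}) (F : ZFSet.{u}) : Prop :=
  ∀ (x : ZFSet.{u}) (i : Ordinal.{u}) (a : ZFSet.{u}),
    ZFSet.pair x (ZFSet.pair i.toZFSet a) ∈ F → a ∈ V_ l

/-- GDV. All levels. -/
def T_GDV : Prop := ∀ δ : Ordinal.{u}, Extendible δ → ¬ CaseA δ → ∀ K : Cardinal.{u},
  K.IsRegular → δ < K.ord → ∀ μ < δ, ω ≤ μ → ∀ l : Ordinal.{u}, (∃ ν < K, NF.Sz ν (V_ (succ l))) →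
    ∀ F, OD F → ValV l F → ∀ n < K.ord, GdV δ μ K.ord F n

/-- BRV. The number of the branches. -/
def T_BRV : Prop := ∀ (D K : Cardinal.{u}), D.IsRegular → D.IsStrongLimit → ℵ₀ < D →
  K.IsRegular → D < K → ∀ (μ l : Ordinal.{u}) (F : ZFSet.{u}), Few D.ord (SpV μ K.ord F) →
    (∀ n < K.ord, GdV D.ord μ K.ord F n) → ∀ m < K.ord, IsSuccLimit m → ∀ Z : ZFSet.{u},
      (∀ R ∈ Z, R ⊆ ZFSet.prod m.toZFSet (V_ l) ∧ ∀ n < m, PosX μ K.ord fun x =>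
        ∀ k < n, ∀ a, ZFSet.pair x (ZFSet.pair k.toZFSet a) ∈ F ↔ ZFSet.pair k.toZFSet a ∈ R) →
      ∃ ν < D, NF.Sz ν Z

/-- the section of `F` at `x` -/
noncomputable def sx (κ l : Ordinal.{u}) (F x : ZFSet.{u}) : ZFSet.{u} :=
  ZFSet.sep (fun z => ZFSet.pair x z ∈ F) (ZFSet.prod κ.toZFSet (V_ l))

/-- all elements of `R` are pairs `(k, a)` with `k` less than all elements of `x` and `a ∈ V_ l` -/
def RegV (l : Ordinal.{u}) (x R : ZFSet.{u}) : Prop := ∀ z ∈ R, ∃ (k : Ordinal.{u}) (a : ZFSet.{u}),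
  z = ZFSet.pair k.toZFSet a ∧ a ∈ V_ l ∧ ∀ b ∈ x, k.toZFSet ∈ b

/-- L3V. Almost all sections are in small ordinal definable sets. -/
def T_L3V : Prop := ∀ δ : Ordinal.{u}, Extendible δ → ¬ CaseA δ → ∀ D K : Cardinal.{u},
  δ = D.ord → K.IsRegular → δ < K.ord → ∀ μ < δ, ω ≤ μ → ∀ l : Ordinal.{u},
    (∃ ν < K, NF.Sz ν (V_ (succ l))) → ∀ F, OD F → (∀ x, RegV l x (sx K.ord l F x)) → ValV l F →
      (∀ x k a, ZFSet.pair x (ZFSet.pair k a) ∈ F → k ∈ K.ord.toZFSet) →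
      ∃ C, Clb K.ord C ∧ ∀ x, SmS μ K.ord C x →
        ∃ Z, OD Z ∧ sx K.ord l F x ∈ Z ∧ ∃ ν < D, NF.Sz ν Z

/-- a counterexample -/
def BadV (D : Cardinal.{u}) (l : Ordinal.{u}) (x R : ZFSet.{u}) : Prop :=
  (∃ z, z ∈ x) ∧ RegV l x R ∧ NF.ODp x R ∧ ¬ ∃ Z, OD Z ∧ R ∈ Z ∧ ∃ ν < D, NF.Sz ν Z

/-- DFV. The least counterexamples. -/
def T_DFV : Prop := ∀ (D K : Cardinal.{u}) (l : Ordinal.{u}), ∃ F, OD F ∧
  (∀ x, RegV l x (sx K.ord l F x)) ∧ ValV l F ∧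
  (∀ x k a, ZFSet.pair x (ZFSet.pair k a) ∈ F → k ∈ K.ord.toZFSet) ∧
  ∀ x ⊆ K.ord.toZFSet, ∀ R, BadV D l x R → BadV D l x (sx K.ord l F x)

/-- NVL. No new subsets of `m × V_ l`. -/
def T_NVL : Prop := ∀ δ : Ordinal.{u}, Extendible δ → ¬ CaseA δ → ∀ K : Cardinal.{u},
  K.IsRegular → δ < K.ord → ∀ l : Ordinal.{u}, (∃ ν < K, NF.Sz ν (V_ (succ l))) →
    ∃ C, Clb K.ord C ∧ ∀ x, Sml δ K.ord C x → ∀ R, RegV l x R → NF.ODp x R →
      ∃ Z, OD Z ∧ R ∈ Z ∧ ∃ ν : Cardinal.{u}, ν.ord < δ ∧ NF.Sz ν Z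

/-- SMV. An element of a small set is definable from a parameter in `V_ δ`. -/
def T_SMV : Prop := ∀ D : Cardinal.{u}, D.IsRegular → D.IsStrongLimit → ℵ₀ < D →
  ∀ (m : Ordinal.{u}) (a Z : ZFSet.{u}), NF.ODp a Z → (∀ B ∈ Z, B ⊆ m.toZFSet) →
    (∃ ν < D, NF.Sz ν Z) → ∀ B ∈ Z, ∃ b ∈ V_ D.ord, NF.ODp (ZFSet.pair a b) B

/-- NBV. The second case. -/
def T_NBV : Prop := ∀ δ : Ordinal.{u}, Extendible δ → ¬ CaseA δ → ∀ K : Cardinal.{u},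
  K.IsRegular → δ < K.ord → ∀ γ, Fit γ K → δ ≤ γ → NoSub δ γ K.ord

/-- NBC. The first case. -/
def T_NBC : Prop := ∀ δ : Ordinal.{u}, Extendible δ → CaseA δ → ∀ K : Cardinal.{u},
  K.IsRegular → δ < K.ord → ∀ γ, Fit γ K → δ ≤ γ → NoSub δ γ K.ord

end HD.HV
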