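import Pool.Agent.H97.HV.Targets
import Mathlib.SetTheory.Cardinal.Regular

/-!
# MP_e37c09_lc: arbitrary normal measures of HOD(V_ γ). Targets
-/

open Ordinal Cardinal Order Set
open scoped ZFSet

universe u

namespace HD.HV

open HD.PRK

/-! ## Statement-level definition -/

/-- `κ` is the successor of a singular cardinal, or `κ` is inaccessible and not a limit of
inaccessible cardinals. -/
def SucIna (K : Cardinal.{u}) : Prop :=
  (∃ μ : Cardinal.{u}, K = succ μ ∧ ℵ₀ ≤ μ ∧ ¬ μ.IsRegular) ∨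
  (K.IsInaccessible ∧ ∃ S₀ < K, ∀ S : Cardinal.{u}, S.IsInaccessible → S < K → S ≤ S₀)

/-! ## Targets -/

/-- RCS. Cofinal subsets of the ordinals which are singular in HOD, uniformly. -/
def T_RCS : Prop := ∃ R T : Ordinal.{u} → Ordinal.{u} → Prop, DR R ∧ DR T ∧
  ∀ b : Ordinal.{u}, SingHOD b → ∃ τ < b, (∀ τ', T b τ' ↔ τ' = τ) ∧
    (∃ e : Ordinal.{u} → Ordinal.{u}, ∀ n, R b n → ∃ a < τ, e a = n) ∧
    (∀ n, R b n → n < b) ∧ ∀ c < b, ∃ n, c ≤ n ∧ R b n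

/-- SGH. No normal measure concentrates on ordinals which are singular in HOD. -/
def T_SGH : Prop := ∀ γ : Ordinal.{u}, IsSuccLimit γ → ∀ K : Cardinal.{u}, K.IsRegular →
  ℵ₀ < K → ∀ U, NMeas (NV γ) K.ord U → ∀ D ∈ U, ∃ b < K.ord, b.toZFSet ∈ D ∧ ¬ SingHOD b

/-- MSC. A measure on an inaccessible cardinal which is not a limit of inaccessible cardinals
concentrates on singular cardinals. -/
def T_MSC : Prop := ∀ γ : Ordinal.{u}, IsSuccLimit γ → ∀ K : Cardinal.{u}, K.IsInaccessible →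
  ∀ S₀ < K, (∀ S : Cardinal.{u}, S.IsInaccessible → S < K → S ≤ S₀) →
    ∀ U, NMeas (NV γ) K.ord U → ∀ δ < K.ord, ∃ D ∈ U, ∀ b : Ordinal.{u}, b < K.ord →
      b.toZFSet ∈ D → ∃ S : Cardinal.{u}, b = S.ord ∧ ℵ₀ ≤ S ∧ ¬ S.IsRegular ∧ δ < b

/-- NMI. No normal measure in the first case. -/
def T_NMI : Prop := ∀ δ : Ordinal.{u}, Extendible δ → CaseA δ → ∀ K : Cardinal.{u},
  SucIna K → δ < K.ord → ∀ γ : Ordinal.{u}, IsSuccLimit γ → ¬ ∃ U, NMeas (NV γ) K.ord U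

end HD.HV
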